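import Pool.Agent.U41.QK.Pen

/-!
# Pencils of quadrics with the given discriminant over the fields containing `√-7`
-/

set_option autoImplicit false

namespace Pool.Agent.U41.QK

open Finset MvPolynomial
open Pool.Agent.U41.QB (FF GG)

/-- the blocks of the first matrix -/
def blA {R : Type*} [CommRing R] (r u w t' : R) : Fin 3 → Matrix (Fin 2) (Fin 2) R :=
  ![!![t' * ((u ^ 2 + w ^ 2) * (2 * u - r * w)), t' * ((u ^ 2 + w ^ 2) * (2 * w + r * u));
      t' * ((u ^ 2 + w ^ 2) * (2 * w + r * u)), -(t' * ((u ^ 2 + w ^ 2) * (2 * u - r * w)))],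
    !![t', 0; 0, -64 * t'], !![t', 0; 0, -64 * t']]

/-- the blocks of the second matrix -/
def blB {R : Type*} [CommRing R] (r u w t : R) : Fin 3 → Matrix (Fin 2) (Fin 2) R :=
  ![!![t * ((u ^ 2 + w ^ 2) * (2 * w + r * u)), -(t * ((u ^ 2 + w ^ 2) * (2 * u - r * w)));
      -(t * ((u ^ 2 + w ^ 2) * (2 * u - r * w))), -(t * ((u ^ 2 + w ^ 2) * (2 * w + r * u)))],
    !![0, t * (1 - 3 * r); t * (1 - 3 * r), 0], !![0, t * (1 + 3 * r); t * (1 + 3 * r), 0]]

theorem pen_id {S : Type*} [CommRing S] {r u w t t' x y : S} (hr : r ^ 2 = -7) :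
    (-((((u ^ 2 + w ^ 2) * (2 * u - r * w)) ^ 2 + ((u ^ 2 + w ^ 2) * (2 * w + r * u)) ^ 2) *
      ((t' * x) ^ 2 + (t * y) ^ 2))) *
    (-(64 * (t' * x) ^ 2 + (1 - 3 * r) ^ 2 * (t * y) ^ 2)) *
    (-(64 * (t' * x) ^ 2 + (1 + 3 * r) ^ 2 * (t * y) ^ 2)) =
    -(16 ^ 2 * FF ((u ^ 2 + w ^ 2) * t ^ 2) ((u ^ 2 + w ^ 2) * t' ^ 2) x y) := by
  have h1 : ((u ^ 2 + w ^ 2) * (2 * u - r * w)) ^ 2 + ((u ^ 2 + w ^ 2) * (2 * w + r * u)) ^ 2 =
      -3 * (u ^ 2 + w ^ 2) ^ 3 := by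
    linear_combination (u ^ 2 + w ^ 2) ^ 3 * hr
  have h2 : (64 * (t' * x) ^ 2 + (1 - 3 * r) ^ 2 * (t * y) ^ 2) *
      (64 * (t' * x) ^ 2 + (1 + 3 * r) ^ 2 * (t * y) ^ 2) =
      256 * (16 * (t' * x) ^ 4 - 31 * (t' * x) ^ 2 * (t * y) ^ 2 + 16 * (t * y) ^ 4) := by
    linear_combination (1152 * (t' * x) ^ 2 * (t * y) ^ 2 + (81 * r ^ 2 - 585) * (t * y) ^ 4) * hr
  have h3 : (-((((u ^ 2 + w ^ 2) * (2 * u - r * w)) ^ 2 + ((u ^ 2 + w ^ 2) * (2 * w + r * u)) ^ 2) *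
      ((t' * x) ^ 2 + (t * y) ^ 2))) *
    (-(64 * (t' * x) ^ 2 + (1 - 3 * r) ^ 2 * (t * y) ^ 2)) *
    (-(64 * (t' * x) ^ 2 + (1 + 3 * r) ^ 2 * (t * y) ^ 2)) =
    -((((u ^ 2 + w ^ 2) * (2 * u - r * w)) ^ 2 + ((u ^ 2 + w ^ 2) * (2 * w + r * u)) ^ 2) *
      ((t' * x) ^ 2 + (t * y) ^ 2) * ((64 * (t' * x) ^ 2 + (1 - 3 * r) ^ 2 * (t * y) ^ 2) *
      (64 * (t' * x) ^ 2 + (1 + 3 * r) ^ 2 * (t * y) ^ 2))) := by ring
  rw [h3, h1, h2]
  unfold FF GG
  ring

/-- the pencil -/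
theorem pencil_ex {R : Type*} [CommRing R] {r : R} (hr : r ^ 2 = -7) (u w t t' : R) :
    ∃ A B : Matrix (Fin 6) (Fin 6) R, A.IsSymm ∧ B.IsSymm ∧
      (A.map (fun α => C α * X 0) + B.map (fun β => C β * X 1) :
        Matrix (Fin 6) (Fin 6) (MvPolynomial (Fin 2) R)).det =
      -(C (16 ^ 2) * FF (C ((u ^ 2 + w ^ 2) * t ^ 2)) (C ((u ^ 2 + w ^ 2) * t' ^ 2)) (X 0) (X 1)) := by
  set e : Fin 6 ≃ Fin 2 × Fin 3 := (finProdFinEquiv (m := 2) (n := 3)).symm with he
  refine ⟨(Matrix.blockDiagonal (blA r u w t')).submatrix e e,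
    (Matrix.blockDiagonal (blB r u w t)).submatrix e e, ?_, ?_, ?_⟩
  · refine Matrix.IsSymm.submatrix ?_ e
    unfold Matrix.IsSymm
    rw [Matrix.blockDiagonal_transpose]
    congr 1
    funext k
    fin_cases k <;> (ext i j; fin_cases i <;> fin_cases j <;> simp [blA])
  · refine Matrix.IsSymm.submatrix ?_ e
    unfold Matrix.IsSymm
    rw [Matrix.blockDiagonal_transpose]
    congr 1
    funext k
    fin_cases k <;> (ext i j; fin_cases i <;> fin_cases j <;> simp [blB])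
  · have h1 : (((Matrix.blockDiagonal (blA r u w t')).submatrix e e).map (fun α => C α * X 0) +
        ((Matrix.blockDiagonal (blB r u w t)).submatrix e e).map (fun β => C β * X 1) :
        Matrix (Fin 6) (Fin 6) (MvPolynomial (Fin 2) R)) =
        (Matrix.blockDiagonal fun k => (blA r u w t' k).map (fun α => C α * X 0) +
          (blB r u w t k).map (fun β => C β * X 1)).submatrix e e := by
      rw [← Matrix.submatrix_map, ← Matrix.submatrix_map,
        Matrix.blockDiagonal_map _ _ (by simp), Matrix.blockDiagonal_map _ _ (by simp)]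
      have h2 := Matrix.blockDiagonal_add
        (fun k => (blA r u w t' k).map (fun α => (C α * X 0 : MvPolynomial (Fin 2) R)))
        (fun k => (blB r u w t k).map (fun β => (C β * X 1 : MvPolynomial (Fin 2) R)))
      have h3 : (fun k => (blA r u w t' k).map (fun α => (C α * X 0 : MvPolynomial (Fin 2) R)) +
          (blB r u w t k).map (fun β => (C β * X 1 : MvPolynomial (Fin 2) R))) =
          (fun k => (blA r u w t' k).map (fun α => (C α * X 0 : MvPolynomial (Fin 2) R))) +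
          (fun k => (blB r u w t k).map (fun β => (C β * X 1 : MvPolynomial (Fin 2) R))) := rfl
      rw [h3, h2]
      rfl
    rw [h1, Matrix.det_submatrix_equiv_self, Matrix.det_blockDiagonal, Fin.prod_univ_three]
    have key := pen_id (S := MvPolynomial (Fin 2) R) (r := C r) (u := C u) (w := C w) (t := C t)
      (t' := C t') (x := X 0) (y := X 1) (by rw [← C_pow, hr, C_neg, show (C (7 : R) : MvPolynomial (Fin 2) R) = 7 from map_ofNat _ _])
    simp only [C_mul, C_pow, C_add]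
    have h16 : (C (16 : R) : MvPolynomial (Fin 2) R) = 16 := map_ofNat _ _
    rw [h16, ← key]
    rw [Matrix.det_fin_two, Matrix.det_fin_two, Matrix.det_fin_two]
    simp only [blA, blB, Matrix.add_apply, Matrix.map_apply, Matrix.of_apply, Matrix.cons_val_zero,
      Matrix.cons_val_one, Matrix.cons_val_fin_one, Matrix.cons_val, C_mul, C_neg, C_add, C_sub,
      C_pow, map_ofNat, C_0, C_1, zero_mul, add_zero, zero_add]
    ring

end Pool.Agent.U41.QK
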