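import Pool.Agent.U80.MQ.Fld
import Pool.Agent.Y698.Er

/-!
# The `L`-function of `E_D` over the subfields of a multiquadratic field containing `√-7`
-/

set_option autoImplicit false

open NumberField IsDedekindDomain H300.HW IsCyclotomicExtension.Rat
open scoped symmDiff

namespace Pool.Agent.U41.QK

open Pool.Agent.Y18.BSD (disc jc dd dd_odd dd_sqfree)
open Pool.Agent.Y18.NF (YY_sub pv_jac gauss_T hasProd_plE)
open Pool.Agent.Y702.L (pv)
open W165.CE (fac ap0)
open Pool.Agent.U80.MQ (A B tw NZ disc_one tw_spec eul cD pp ap0_tw disc_ne dvd_disc hasProd_F fac_factor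
  ep ep_diff ep_one eul_prod factor)

/-- the field generated by the square roots of the elements of `P` and of `-7` -/
noncomputable def Om7 (P : Finset ℕ) : IntermediateField ℚ ℂ :=
  IntermediateField.adjoin ℚ {z : ℂ | (∃ q ∈ P, z ^ 2 = (q : ℂ)) ∨ z ^ 2 = -7}

lemma disc_seven : disc {7} = -7 := by
  unfold disc
  rw [Finset.prod_singleton]
  norm_num

/-- the field inside a cyclotomic field -/
theorem cyc_field (P : Finset ℕ) (hP : ∀ q ∈ P, q.Prime ∧ q % 4 = 1)
    (K : IntermediateField ℚ ℂ) [NumberField K] (hK : K ≤ Om7 P) :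
    ∃ (n : ℕ) (_ : NeZero n) (L : Type) (_ : Field L) (_ : NumberField L)
      (_ : IsCyclotomicExtension {n} ℚ L) (F : IntermediateField ℚ L) (_ : F ≃+* K),
      ∀ χ ∈ YY n L F, ∃ T, T ⊆ insert 7 P ∧
        ∀ p : ℕ, pv n χ p = ((jacobiSym p (∏ q ∈ T, q) : ℤ) : ℂ) := by
  classical
  set P' : Finset ℕ := insert 7 P with hP'
  have hPp : ∀ q ∈ P', q.Prime ∧ q ≠ 2 := by
    intro q hq
    rcases Finset.mem_insert.1 hq with rfl | hq
    · exact ⟨by norm_num, by norm_num⟩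
    · refine ⟨(hP q hq).1, ?_⟩
      rintro rfl
      have := (hP 2 hq).2
      omega
  set n : ℕ := ∏ q ∈ P', q with hn
  have hn0 : NeZero n := ⟨Finset.prod_ne_zero_iff.2 fun q hq => (hPp q hq).1.ne_zero⟩
  have hcyc : IsCyclotomicExtension {n} ℚ (CyclotomicField n ℚ) :=
    CyclotomicField.isCyclotomicExtension n ℚ
  let φ : CyclotomicField n ℚ →ₐ[ℚ] ℂ := IsAlgClosed.lift
  set X : Set (Finset ℕ) := {T | T ⊆ P'} with hX
  have hX0 : ∅ ∈ X := Finset.empty_subset P'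
  have hXc : ∀ S ∈ X, ∀ T ∈ X, S ∆ T ∈ X := by
    intro S hS T hT q hq
    rcases Finset.mem_symmDiff.1 hq with h | h
    · exact hS h.1
    · exact hT h.1
  set ZL : Set (CyclotomicField n ℚ) :=
    {z | ∃ T ∈ X, T ⊆ P' ∧ z ^ 2 = ((disc T : ℤ) : CyclotomicField n ℚ)} with hZL
  have hadj : K ≤ (IntermediateField.adjoin ℚ ZL).map φ := by
    refine hK.trans ?_
    unfold Om7
    rw [IntermediateField.adjoin_map]
    refine IntermediateField.adjoin.mono ℚ _ _ ?_
    intro z hz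
    obtain ⟨q, hq, hqz⟩ : ∃ q ∈ P', z ^ 2 = ((disc {q} : ℤ) : ℂ) := by
      rcases hz with ⟨q, hq, hz⟩ | hz
      · refine ⟨q, Finset.mem_insert_of_mem hq, ?_⟩
        rw [disc_one (hP q hq).2, hz, Int.cast_natCast]
      · refine ⟨7, Finset.mem_insert_self _ _, ?_⟩
        rw [disc_seven, hz]
        norm_num
    have hT1 : ∀ r ∈ ({q} : Finset ℕ), r.Prime ∧ r ≠ 2 := by
      intro r hr
      rw [Finset.mem_singleton] at hr
      rw [hr]
      exact hPp q hq
    have hT2 : ∀ r ∈ ({q} : Finset ℕ), r ∣ n := by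
      intro r hr
      rw [Finset.mem_singleton] at hr
      rw [hr]
      exact Finset.dvd_prod_of_mem _ hq
    obtain ⟨g, hg, -⟩ := gauss_T n (CyclotomicField n ℚ) hT1 hT2
    have hs : ({q} : Finset ℕ) ⊆ P' := Finset.singleton_subset_iff.2 hq
    have h2 : (φ g) ^ 2 = ((disc {q} : ℤ) : ℂ) := by
      rw [← map_pow, hg, map_intCast]
    rcases sq_eq_sq_iff_eq_or_eq_neg.1 (hqz.trans h2.symm) with h | h
    · exact ⟨g, ⟨{q}, hs, hs, hg⟩, h.symm⟩
    · exact ⟨-g, ⟨{q}, hs, hs, by rw [neg_sq, hg]⟩, by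
        show φ (-g) = z
        rw [map_neg, h]⟩
  set F' : IntermediateField ℚ (CyclotomicField n ℚ) := K.comap φ with hF'
  have hF'le : F' ≤ IntermediateField.adjoin ℚ ZL := by
    intro x hx
    have h2 : φ x ∈ K := hx
    obtain ⟨y, hy, hyx⟩ := hadj h2
    have h3 : y = x := φ.toRingHom.injective hyx
    rw [← h3]
    exact hy
  let ψ : F' →+* K :=
    { toFun := fun x => ⟨φ x.1, x.2⟩
      map_one' := Subtype.ext (map_one φ)
      map_mul' := fun x y => Subtype.ext (map_mul φ x.1 y.1)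
      map_zero' := Subtype.ext (map_zero φ)
      map_add' := fun x y => Subtype.ext (map_add φ x.1 y.1) }
  have hψ : Function.Bijective ψ := by
    refine ⟨ψ.injective, fun y => ?_⟩
    obtain ⟨x, -, hx⟩ := hadj y.2
    exact ⟨⟨x, by
      show φ x ∈ K
      have : φ x = y := hx
      rw [this]
      exact y.2⟩, Subtype.ext hx⟩
  refine ⟨n, hn0, CyclotomicField n ℚ, inferInstance, inferInstance, hcyc, F',
    RingEquiv.ofBijective ψ hψ, fun χ hχ => ?_⟩
  obtain ⟨T, hT, hTP, hTχ⟩ := YY_sub n (CyclotomicField n ℚ) X P' hPp dvd_rfl hX0 hXc F' hF'le hχ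
  refine ⟨T, hTP, fun p => ?_⟩
  exact pv_jac n (fun q hq => hPp q (hTP hq)) (Finset.prod_dvd_prod_of_subset _ _ _ hTP) hTχ p

/-- supersingular primes -/
theorem ap0_inert {D p : ℕ} (hp : p.Prime) (hp2 : p ≠ 2) (hp7 : p ≠ 7) (h : ¬ p ∣ D)
    (hj : jacobiSym p 7 = -1) : ap0 (A D) (B D) p = 0 := by
  have : Fact p.Prime := ⟨hp⟩
  have : Fact (Nat.Prime 7) := ⟨by norm_num⟩
  have hin : ¬ IsSquare (-7 : ZMod p) := by
    intro hs
    have h7 : (-7 : ZMod p) ≠ 0 := by
      rw [neg_ne_zero]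
      have : ((7 : ℕ) : ZMod p) ≠ 0 := by
        rw [Ne, ZMod.natCast_eq_zero_iff]
        intro h
        exact hp7 ((Nat.prime_dvd_prime_iff_eq hp (by norm_num)).1 h)
      exact_mod_cast this
    have h1 : legendreSym p (-7) = 1 := by
      rw [legendreSym.eq_one_iff p (by push_cast; exact h7)]
      push_cast
      exact hs
    have h2 : jacobiSym (-7) p = 1 := by
      rw [← jacobiSym.legendreSym.to_jacobiSym]; exact h1
    have hpo : Odd p := hp.odd_of_ne_two hp2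
    have h3 : jacobiSym (-7) p = jacobiSym p 7 := by
      have e1 : jacobiSym (-7) p = ZMod.χ₄ p * jacobiSym 7 p := by
        rw [show (-7 : ℤ) = -1 * 7 by norm_num, jacobiSym.mul_left, jacobiSym.at_neg_one hpo]
      have e2 : jacobiSym (7 : ℕ) p = (-1) ^ (7 / 2 * (p / 2)) * jacobiSym p 7 :=
        jacobiSym.quadratic_reciprocity (by decide) hpo
      have e3 : jacobiSym 7 p = jacobiSym ((7 : ℕ) : ℤ) p := rfl
      rw [e1, e3, e2]
      have hp1 : p % 4 = 1 ∨ p % 4 = 3 := by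
        have := hpo; rw [Nat.odd_iff] at this; omega
      rcases hp1 with h4 | h4
      · rw [ZMod.χ₄_nat_one_mod_four h4]
        have : Even (7 / 2 * (p / 2)) := by
          have : (p / 2) % 2 = 0 := by omega
          exact (Nat.even_iff.2 this).mul_left _
        rw [this.neg_one_pow]; ring
      · rw [ZMod.χ₄_nat_three_mod_four h4]
        have : Odd (7 / 2 * (p / 2)) := by
          have h5 : (p / 2) % 2 = 1 := by omega
          exact Odd.mul (by decide) (Nat.odd_iff.2 h5)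
        rw [this.neg_one_pow]; ring
    rw [h3, hj] at h2
    norm_num at h2
  have h1 := (Pool.Agent.Y698.ap_inert hp hp2 hp7 hin).1
  have h2 : ap0 (-35) (-98) p = 0 := h1
  rw [ap0_tw hp hp2 h, h2, mul_zero]

/-- the twist by the character of `ℚ(√-7)` -/
theorem eul_seven {n : ℕ} [NeZero n] {D : ℕ} {T : Finset ℕ} (hT : ∀ q ∈ T, q.Prime ∧ q ≠ 2)
    (hT7 : 7 ∈ T) {χ : DirichletCharacter ℂ n}
    (hχ : ∀ p : ℕ, pv n χ p = ((jacobiSym p (∏ q ∈ T, q) : ℤ) : ℂ)) {m : ℕ} [NeZero m]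
    {ψ : DirichletCharacter ℂ m}
    (hψ : ∀ p : ℕ, pv m ψ p = ((jacobiSym p (∏ q ∈ T.erase 7, q) : ℤ) : ℂ)) (s : ℂ) {p : ℕ}
    (hp : p.Prime) : eul n (14 * D) (cD D) χ s p = eul m (14 * D) (cD D) ψ s p := by
  classical
  unfold eul cD pp
  by_cases h1 : p ∣ 14 * D
  · rw [if_pos h1, if_pos h1]
    simp
  · rw [if_neg h1, if_neg h1, hχ, hψ, ← Finset.mul_prod_erase T (fun q => q) hT7]
    have hpD : ¬ p ∣ D := fun h2 => h1 (h2.mul_left 14)
    have hp14 : ¬ p ∣ 14 := fun h2 => h1 (h2.mul_right D)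
    have hp2 : p ≠ 2 := by rintro rfl; exact hp14 (by norm_num)
    have hp7 : p ≠ 7 := by rintro rfl; exact hp14 (by norm_num)
    have hne : (∏ q ∈ T.erase 7, q) ≠ 0 :=
      Finset.prod_ne_zero_iff.2 fun q hq => (hT q (Finset.mem_of_mem_erase hq)).1.ne_zero
    have e : jacobiSym p (7 * ∏ q ∈ T.erase 7, q) =
        jacobiSym p 7 * jacobiSym p (∏ q ∈ T.erase 7, q) := jacobiSym.mul_right' _ (by norm_num) hne
    have hc : Int.gcd (p : ℤ) (7 : ℕ) = 1 := by
      rw [Int.gcd_natCast_natCast]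
      exact (Nat.coprime_primes hp (by norm_num)).2 hp7
    rcases jacobiSym.eq_one_or_neg_one (a := (p : ℤ)) (b := 7) hc with h7 | h7
    · rw [e, h7, one_mul]
    · rw [e, h7, ap0_inert hp hp2 hp7 hpD h7]
      push_cast
      ring

/-- **the `L`-function over a subfield** -/
theorem lf_K (P : Finset ℕ) (hP : ∀ q ∈ P, q.Prime ∧ q % 4 = 1) {D : ℕ} (hD : Squarefree D)
    (h : ∀ T, T ⊆ P → NZ (tw (∏ q ∈ T, q) D))
    (K : IntermediateField ℚ ℂ) [NumberField K] (hK : K ≤ Om7 P) :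
    ∃ G : ℂ → ℂ, Differentiable ℂ G ∧ (∀ s : ℂ, 3 / 2 < s.re →
      HasProd (factor (K := K) (A D) (B D) s) (G s)) ∧ G 1 ≠ 0 := by
  classical
  obtain ⟨n, hn0, L, hL1, hL2, hL3, F, e, hχ⟩ := cyc_field P hP K hK
  have hPp : ∀ q ∈ insert 7 P, q.Prime ∧ q ≠ 2 := by
    intro q hq
    rcases Finset.mem_insert.1 hq with rfl | hq
    · exact ⟨by norm_num, by norm_num⟩
    · refine ⟨(hP q hq).1, ?_⟩
      rintro rfl
      have := (hP 2 hq).2
      omega
  have hsq : ∀ T, T ⊆ P → Squarefree (∏ q ∈ T, q) := by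
    intro T hT
    exact dd_sqfree fun q hq => (hP q (hT hq)).1
  have hmem : ∀ T, T ⊆ P → ∀ p : ℕ, p.Prime → p ∣ ∏ q ∈ T, q → p % 4 = 1 := by
    intro T hT p hp hd
    obtain ⟨q, hq, hpq⟩ := (Nat.Prime.prime hp).exists_mem_finset_dvd hd
    have := (Nat.prime_dvd_prime_iff_eq hp (hP q (hT hq)).1).1 hpq
    rw [this]
    exact (hP q (hT hq)).2
  -- the twists by the products of elements of `P`
  have hbase : ∀ (m : ℕ) [NeZero m] (ψ : DirichletCharacter ℂ m) (T : Finset ℕ), T ⊆ P →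
      (∀ p : ℕ, pv m ψ p = ((jacobiSym p (∏ q ∈ T, q) : ℤ) : ℂ)) →
      ∃ G : ℂ → ℂ, Differentiable ℂ G ∧ G 1 ≠ 0 ∧ ∀ s : ℂ, 3 / 2 < s.re →
        HasProd (fun p : Nat.Primes => eul m (14 * D) (cD D) ψ s p) (G s) := by
    intro m _ ψ T hT hTχ
    obtain ⟨Φ, h1, h2, h3⟩ := h T hT
    have hM0 : (∏ q ∈ T, q) ≠ 0 := (hsq T hT).ne_zero
    obtain ⟨e1, e2⟩ := tw_spec hM0 hD.ne_zero
    refine ⟨fun s => Φ s * ∏ p ∈ (Nat.gcd (∏ q ∈ T, q) D).primeFactors,
      ep (tw (∏ q ∈ T, q) D) s p, ?_, ?_, fun s hs => ?_⟩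
    · refine h1.mul ?_
      refine Differentiable.fun_finsetProd fun p hp => ?_
      exact ep_diff (Nat.prime_of_mem_primeFactors hp)
    · refine mul_ne_zero h3 (Finset.prod_ne_zero_iff.2 fun p hp => ?_)
      exact ep_one (Nat.prime_of_mem_primeFactors hp)
    · exact eul_prod e2 hD (hsq T hT) (hmem T hT) rfl e1 hTχ h2 hs
  have hex : ∀ χ : DirichletCharacter ℂ n, ∃ G : ℂ → ℂ, χ ∈ YY n L F →
      Differentiable ℂ G ∧ G 1 ≠ 0 ∧ ∀ s : ℂ, 3 / 2 < s.re →
        HasProd (fun p : Nat.Primes => eul n (14 * D) (cD D) χ s p) (G s) := by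
    intro χ
    by_cases hm : χ ∈ YY n L F
    · obtain ⟨T, hT, hTχ⟩ := hχ χ hm
      by_cases h7 : 7 ∈ T
      · have hT0 : T.erase 7 ⊆ P := by
          intro q hq
          rcases Finset.mem_insert.1 (hT (Finset.mem_of_mem_erase hq)) with h8 | h8
          · exact absurd h8 (Finset.ne_of_mem_erase hq)
          · exact h8
        have hT0p : ∀ q ∈ T.erase 7, q.Prime ∧ q ≠ 2 := fun q hq =>
          hPp q (Finset.mem_insert_of_mem (hT0 hq))
        have hm0 : NeZero (dd (T.erase 7)) :=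
          ⟨Finset.prod_ne_zero_iff.2 fun q hq => (hT0p q hq).1.ne_zero⟩
        obtain ⟨ψ, -, hψ⟩ := H385.jac_char (dd (T.erase 7)) (dd_odd hT0p)
          (dd_sqfree fun q hq => (hT0p q hq).1)
        have hψ' : ∀ p : ℕ, pv (dd (T.erase 7)) ψ p =
            ((jacobiSym p (∏ q ∈ T.erase 7, q) : ℤ) : ℂ) := fun p =>
          pv_jac (dd (T.erase 7)) hT0p dvd_rfl (fun u => by
            have := hψ (u : ZMod (dd (T.erase 7))).val
            rw [ZMod.natCast_val, ZMod.cast_id] at this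
            exact this) p
        obtain ⟨G, g1, g2, g3⟩ := hbase (dd (T.erase 7)) ψ (T.erase 7) hT0 hψ'
        refine ⟨G, fun _ => ⟨g1, g2, fun s hs => ?_⟩⟩
        refine (congrArg (fun f => HasProd f (G s)) (funext fun p => ?_)).mp (g3 s hs)
        exact (eul_seven (fun q hq => hPp q (hT hq)) h7 hTχ hψ' s p.2).symm
      · have hT0 : T ⊆ P := by
          intro q hq
          rcases Finset.mem_insert.1 (hT hq) with h8 | h8
          · exact absurd (h8 ▸ hq) h7
          · exact h8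
        obtain ⟨G, hG⟩ := hbase n χ T hT0 hTχ
        exact ⟨G, fun _ => hG⟩
    · exact ⟨fun _ => 1, fun h0 => absurd h0 hm⟩
  choose G hG using hex
  refine ⟨fun s => ∏ χ : YY n L F, G χ s, ?_, fun s hs => ?_, ?_⟩
  · refine Differentiable.fun_finsetProd fun χ _ => ?_
    exact (hG χ.1 χ.2).1
  · have h1 := hasProd_F n L F (a := A D) (b := B D) (N := 14 * D) (c := cD D)
      (disc_ne hD.ne_zero) (fun p hp hpd => by
        rw [dvd_disc hp] at hpd
        exact ⟨hpd, by unfold cD; rw [if_neg hpd]⟩) G s hs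
      (fun χ hχ' => (hG χ hχ').2.2 s hs)
    have h2 := hasProd_plE (NumberField.RingOfIntegers.mapRingEquiv e) (A D) (B D) (14 * D) (cD D) s _ h1
    refine (congrArg (fun f => HasProd f (∏ χ : YY n L F, G χ s))
      (funext fun v => ?_)).mp h2
    refine fac_factor (fun p hp hpd => ?_) s v
    rw [dvd_disc hp] at hpd
    exact ⟨hpd, by unfold cD; rw [if_pos hpd]⟩
  · exact Finset.prod_ne_zero_iff.2 fun χ _ => (hG χ.1 χ.2).2.1

end Pool.Agent.U41.QK
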