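import Pool.Agent.U80.MQ.Rk
import Pool.Agent.U41.QK.Lf7

/-!
# The points of `E_D` over the subfields of a multiquadratic field containing `√-7`
-/

set_option autoImplicit false

open NumberField IsDedekindDomain WeierstrassCurve

namespace Pool.Agent.U41.QK

open Pool.Agent.TH841.NF.D (rk)
open Pool.Agent.Y682 (gc gc_isT fg_MP MP mt mt_inj)
open Pool.Agent.U80.MQ (tc tc_disc wq wq_ne R7 R7_quad R7_Om R7_tw Om fin_Om finrank_fin pt_equiv sc_le tw A B)

/-- the solutions of `y² = x³ - 35 c² x - 98 c³` -/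
def sols {K : Type} [Field K] (c : K) : Set (K × K) :=
  {w | w.2 ^ 2 = w.1 ^ 3 - 35 * c ^ 2 * w.1 - 98 * c ^ 3}

section
variable {K : Type} [Field K]

/-- the kernel polynomial of the isogeny of degree `7` -/
def hh (c x : K) : K := x ^ 3 + 7 * c * x ^ 2 - 21 * c ^ 2 * x - 91 * c ^ 3

/-- the numerator -/
def NN (c x : K) : K := x ^ 7 + 14 * c * x ^ 6 + 343 * c ^ 2 * x ^ 5 - 588 * c ^ 3 * x ^ 4 -
  24353 * c ^ 4 * x ^ 3 - 120050 * c ^ 5 * x ^ 2 - 285719 * c ^ 6 * x - 422576 * c ^ 7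

/-- the second numerator -/
def MM (c x : K) : K := x ^ 9 + 21 * c * x ^ 8 - 252 * c ^ 2 * x ^ 7 + 1764 * c ^ 3 * x ^ 6 +
  43806 * c ^ 4 * x ^ 5 + 519302 * c ^ 5 * x ^ 4 + 3834740 * c ^ 6 * x ^ 3 + 15183924 * c ^ 7 * x ^ 2 +
  27681129 * c ^ 8 * x + 8252237 * c ^ 9

theorem iso_id (c x : K) : (x ^ 3 - 35 * c ^ 2 * x - 98 * c ^ 3) * MM c x ^ 2 =
    NN c x ^ 3 - 35 * (-7 * c) ^ 2 * NN c x * hh c x ^ 4 - 98 * (-7 * c) ^ 3 * hh c x ^ 6 := by
  unfold MM NN hh
  ring

theorem iso_map {c x y : K} (h : y ^ 2 = x ^ 3 - 35 * c ^ 2 * x - 98 * c ^ 3) (h0 : hh c x ≠ 0) :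
    (NN c x / hh c x ^ 2, y * MM c x / hh c x ^ 3) ∈ sols (-7 * c) := by
  show (y * MM c x / hh c x ^ 3) ^ 2 = (NN c x / hh c x ^ 2) ^ 3 -
    35 * (-7 * c) ^ 2 * (NN c x / hh c x ^ 2) - 98 * (-7 * c) ^ 3
  have key := iso_id c x
  rw [← h] at key
  field_simp
  linear_combination key

open Polynomial in
theorem fin_hh (c : K) : {x : K | hh c x = 0}.Finite := by
  classical
  set p : K[X] := X ^ 3 + (C (7 * c) * X ^ 2 - C (21 * c ^ 2) * X - C (91 * c ^ 3)) with hp
  have hm : p.Monic := by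
    refine monic_X_pow_add ?_
    compute_degree!
  refine (p.roots.toFinset.finite_toSet).subset fun x hx => ?_
  rw [Finset.mem_coe, Multiset.mem_toFinset, mem_roots hm.ne_zero]
  have h1 : hh c x = 0 := hx
  show p.eval x = 0
  rw [← h1, hp]
  unfold hh
  simp
  ring

open Polynomial in
theorem fin_NN (c X₀ : K) : {x : K | NN c x = X₀ * hh c x ^ 2}.Finite := by
  classical
  set p : K[X] := X ^ 7 + (C (14 * c) * X ^ 6 + C (343 * c ^ 2) * X ^ 5 - C (588 * c ^ 3) * X ^ 4 -
    C (24353 * c ^ 4) * X ^ 3 - C (120050 * c ^ 5) * X ^ 2 - C (285719 * c ^ 6) * X -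
    C (422576 * c ^ 7) - C X₀ * (X ^ 3 + C (7 * c) * X ^ 2 - C (21 * c ^ 2) * X - C (91 * c ^ 3)) ^ 2) with hp
  have hm : p.Monic := by
    refine monic_X_pow_add ?_
    compute_degree!
  refine (p.roots.toFinset.finite_toSet).subset fun x hx => ?_
  rw [Finset.mem_coe, Multiset.mem_toFinset, mem_roots hm.ne_zero]
  have h1 : NN c x = X₀ * hh c x ^ 2 := hx
  show p.eval x = 0
  rw [← sub_eq_zero] at h1
  rw [← h1, hp]
  unfold hh NN
  simp
  ring

open Polynomial in
theorem fin_sq (u : K) : {y : K | y ^ 2 = u}.Finite := by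
  classical
  set p : K[X] := X ^ 2 + (- C u) with hp
  have hm : p.Monic := by
    refine monic_X_pow_add ?_
    compute_degree!
  refine (p.roots.toFinset.finite_toSet).subset fun x hx => ?_
  rw [Finset.mem_coe, Multiset.mem_toFinset, mem_roots hm.ne_zero]
  have h1 : x ^ 2 = u := hx
  show p.eval x = 0
  rw [hp]
  simp [h1]

/-- finitely many solutions, from the isogenous curve -/
theorem sols_seven {c : K} (h : (sols (-7 * c)).Finite) : (sols c).Finite := by
  have hZ : ({x : K | hh c x = 0} ∪ ⋃ w ∈ sols (-7 * c), {x : K | NN c x = w.1 * hh c x ^ 2}).Finite :=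
    (fin_hh c).union (h.biUnion fun w _ => fin_NN c w.1)
  have hS : (⋃ x ∈ ({x : K | hh c x = 0} ∪ ⋃ w ∈ sols (-7 * c), {x : K | NN c x = w.1 * hh c x ^ 2}),
      (fun y : K => (x, y)) '' {y : K | y ^ 2 = x ^ 3 - 35 * c ^ 2 * x - 98 * c ^ 3}).Finite :=
    hZ.biUnion fun x _ => (fin_sq _).image _
  refine hS.subset fun w hw => ?_
  have hw' : w.2 ^ 2 = w.1 ^ 3 - 35 * c ^ 2 * w.1 - 98 * c ^ 3 := hw
  refine Set.mem_biUnion (x := w.1) ?_ ⟨w.2, hw', rfl⟩
  by_cases h0 : hh c w.1 = 0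
  · exact Or.inl h0
  · right
    refine Set.mem_biUnion (iso_map hw' h0) ?_
    show NN c w.1 = NN c w.1 / hh c w.1 ^ 2 * hh c w.1 ^ 2
    field_simp

/-- the twist by a square -/
theorem sols_sq {c t : K} (ht : t ≠ 0) (h : (sols c).Finite) : (sols (c * t ^ 2)).Finite := by
  refine (h.image fun w : K × K => (t ^ 2 * w.1, t ^ 3 * w.2)).subset fun w hw => ?_
  have hw' : w.2 ^ 2 = w.1 ^ 3 - 35 * (c * t ^ 2) ^ 2 * w.1 - 98 * (c * t ^ 2) ^ 3 := hw
  refine ⟨(w.1 / t ^ 2, w.2 / t ^ 3), ?_, ?_⟩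
  · show (w.2 / t ^ 3) ^ 2 = (w.1 / t ^ 2) ^ 3 - 35 * c ^ 2 * (w.1 / t ^ 2) - 98 * c ^ 3
    field_simp
    linear_combination hw'
  · refine Prod.ext ?_ ?_
    · show t ^ 2 * (w.1 / t ^ 2) = w.1
      field_simp
    · show t ^ 3 * (w.2 / t ^ 3) = w.2
      field_simp

/-- finitely many points give finitely many solutions -/
theorem sols_of [CharZero K] {D : ℕ} (hD : D ≠ 0) (h : Finite (tc D K).toAffine.Point) :
    (sols (D : K)).Finite := by
  have hE : ∀ w : sols (D : K), (tc D K).toAffine.Nonsingular w.1.1 w.1.2 := by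
    intro w
    rw [← Affine.equation_iff_nonsingular_of_Δ_ne_zero (tc_disc hD K), Affine.equation_iff]
    have hw : w.1.2 ^ 2 = w.1.1 ^ 3 - 35 * (D : K) ^ 2 * w.1.1 - 98 * (D : K) ^ 3 := w.2
    unfold tc A B
    push_cast
    linear_combination hw
  have : Finite (sols (D : K)) := by
    refine Finite.of_injective (fun w : sols (D : K) => Affine.Point.some w.1.1 w.1.2 (hE w)) ?_
    intro w w' hww
    rw [Affine.Point.some.injEq] at hww
    exact Subtype.ext (Prod.ext hww.1 hww.2)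
  exact Set.toFinite _

/-- finitely many solutions give finitely many points -/
theorem wq_of {c : ℤ} (h : (sols (c : K)).Finite) : Finite (wq c K).toAffine.Point := by
  classical
  have : Finite (sols (c : K)) := h.to_subtype
  have hE : ∀ x y : K, (wq c K).toAffine.Nonsingular x y → (x + 7 * c, y) ∈ sols (c : K) := by
    intro x y hxy
    have h1 := (Affine.equation_iff (W := (wq c K).toAffine) x y).1 hxy.1
    unfold wq gc at h1
    simp only at h1
    push_cast at h1
    show y ^ 2 = (x + 7 * c) ^ 3 - 35 * (c : K) ^ 2 * (x + 7 * c) - 98 * (c : K) ^ 3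
    linear_combination h1
  let f : (wq c K).toAffine.Point → Option (sols (c : K)) := fun P => match P with
    | .zero => none
    | .some x y hxy => some ⟨(x + 7 * c, y), hE x y hxy⟩
  refine Finite.of_injective f ?_
  intro P Q hPQ
  rcases P with _ | ⟨x, y, hx⟩ <;> rcases Q with _ | ⟨x', y', hx'⟩
  · rfl
  · exact absurd hPQ (by simp [f])
  · exact absurd hPQ (by simp [f])
  · have h1 : (⟨(x + 7 * c, y), hE x y hx⟩ : sols (c : K)) = ⟨(x' + 7 * c, y'), hE x' y' hx'⟩ :=
      Option.some.inj hPQ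
    have h2 := congrArg (fun w : sols (c : K) => w.1) h1
    have h3 : x + 7 * c = x' + 7 * c := congrArg Prod.fst h2
    have h4 : y = y' := congrArg Prod.snd h2
    have h5 : x = x' := add_right_cancel h3
    subst h5 h4
    rfl

end

/-- rank zero for the twist by `-7 D` -/
theorem R7_neg {K : Type} [Field K] [NumberField K] {D : ℕ} (hD : D ≠ 0)
    (h : Finite (tc D K).toAffine.Point) : R7 K ((D : ℤ) * (-7)) = 0 := by
  have h1 : (sols (D : K)).Finite := sols_of hD h
  have h2 : (sols (-7 * (-7 * (D : K)))).Finite := by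
    have := sols_sq (c := (D : K)) (t := 7) (by norm_num) h1
    convert this using 2
    ring
  have h3 : (sols (-7 * (D : K))).Finite := sols_seven h2
  have h4 : (sols ((((D : ℤ) * (-7) : ℤ)) : K)).Finite := by
    convert h3 using 2
    push_cast
    ring
  have h5 : Finite (MP (wq ((D : ℤ) * (-7)) K)) := wq_of h4
  exact finrank_fin (G := MP (wq ((D : ℤ) * (-7)) K))

lemma Om7_eq (P : Finset ℕ) {z : ℂ} (hz : z ^ 2 = -7) :
    Om7 P = Om P ⊔ IntermediateField.adjoin ℚ {z} := by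
  apply le_antisymm
  · unfold Om7
    rw [IntermediateField.adjoin_le_iff]
    rintro w (⟨e, he, hw⟩ | hw)
    · exact (le_sup_left : Om P ≤ _ ⊔ IntermediateField.adjoin ℚ {z})
        (IntermediateField.subset_adjoin ℚ _ ⟨e, he, hw⟩)
    · have h1 : z ∈ IntermediateField.adjoin ℚ {z} := IntermediateField.mem_adjoin_simple_self ℚ z
      have h2 : w ∈ IntermediateField.adjoin ℚ {z} := by
        rcases sq_eq_sq_iff_eq_or_eq_neg.1 (hw.trans hz.symm) with h | h
        · rw [h]; exact h1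
        · rw [h]; exact neg_mem h1
      exact (le_sup_right : _ ≤ Om P ⊔ _) h2
  · refine sup_le ?_ ?_
    · unfold Om Om7
      refine IntermediateField.adjoin.mono ℚ _ _ ?_
      rintro w ⟨e, he, hw⟩
      exact Or.inl ⟨e, he, hw⟩
    · rw [IntermediateField.adjoin_simple_le_iff]
      exact IntermediateField.subset_adjoin ℚ _ (Or.inr hz)

open scoped Classical in
/-- finitely many points over the multiquadratic field with `√-7` -/
theorem fin_Om7 {P : Finset ℕ} (hP : ∀ q ∈ P, q.Prime) {D : ℕ} (hD : D ≠ 0)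
    (h : ∀ T, T ⊆ P → Finite (tc (tw (∏ q ∈ T, q) D) ℚ).toAffine.Point) :
    FiniteDimensional ℚ (Om7 P) ∧ Finite (tc D (Om7 P)).toAffine.Point := by
  obtain ⟨hfd, h1⟩ := R7_Om P fun q hq => (hP q hq).ne_zero
  have hN : NumberField (Om P) := { to_charZero := inferInstance, to_finiteDimensional := hfd }
  obtain ⟨-, hfin⟩ := fin_Om hP hD h
  obtain ⟨z, hz⟩ : ∃ z : ℂ, z ^ 2 = (-7 : ℂ) := IsAlgClosed.exists_pow_nat_eq _ (by norm_num)
  have hOm := Om7_eq P hz
  by_cases hz0 : z ∈ Om P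
  · have e : Om7 P = Om P := by
      rw [hOm]
      exact sup_eq_left.2 ((IntermediateField.adjoin_simple_le_iff).2 hz0)
    rw [e]
    exact ⟨hfd, hfin⟩
  · have hfd7 : FiniteDimensional ℚ (Om7 P) := by
      rw [hOm]
      have : FiniteDimensional ℚ (IntermediateField.adjoin ℚ {z} : IntermediateField ℚ ℂ) :=
        IntermediateField.adjoin.finiteDimensional ⟨Polynomial.X ^ 2 - Polynomial.C (-7 : ℚ),
          Polynomial.monic_X_pow_sub_C _ (by norm_num), by
            rw [Polynomial.eval₂_sub, Polynomial.eval₂_pow, Polynomial.eval₂_X,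
              Polynomial.eval₂_C, hz]
            simp⟩
      exact IntermediateField.finiteDimensional_sup _ _
    have hN7 : NumberField (Om7 P) := { to_charZero := inferInstance, to_finiteDimensional := hfd7 }
    refine ⟨hfd7, ?_⟩
    have hDZ : (D : ℤ) ≠ 0 := by exact_mod_cast hD
    have h2 := h1 (Om P) rfl D (by exact_mod_cast hD) fun T hT =>
      R7_tw (Finset.prod_ne_zero_iff.2 fun q hq => (hP q (hT hq)).ne_zero) hD (h T hT)
    have h3 : R7 (Om7 P) D = 0 := by
      rw [R7_quad (Om P) (Om7 P) (d := -7) (by norm_num) hz0 (by rw [hz]; norm_num) hOm hDZ, h2,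
        R7_neg hD hfin]
    have h4 : Module.Finite ℤ (MP (wq D (Om7 P))) :=
      fg_MP (gc_isT (wq_ne hDZ).1 (wq_ne hDZ).2 (Om7 P))
    have h5 : Module.finrank ℤ (MP (wq D (Om7 P))) = 0 := h3
    have h6 : Module.IsTorsion ℤ (MP (wq D (Om7 P))) := Module.finrank_eq_zero_iff_isTorsion.1 h5
    have h7 : Finite (MP (wq D (Om7 P))) := Module.finite_of_fg_torsion _ h6
    obtain ⟨e⟩ := pt_equiv hD (Om7 P)
    have h8 : Finite (wq D (Om7 P)).toAffine.Point := h7
    exact Finite.of_equiv _ e.symm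

/-- finitely many points over the subfields -/
theorem fin_K7 {P : Finset ℕ} (hP : ∀ q ∈ P, q.Prime) {D : ℕ} (hD : D ≠ 0)
    (h : ∀ T, T ⊆ P → Finite (tc (tw (∏ q ∈ T, q) D) ℚ).toAffine.Point)
    (K : IntermediateField ℚ ℂ) (hK : K ≤ Om7 P) : Finite (tc D K).toAffine.Point := by
  have h1 := (fin_Om7 hP hD h).2
  have h2 : Finite (MP (tc D (Om7 P))) := h1
  exact Finite.of_injective (mt (sc_le hK D)) (mt_inj (sc_le hK D))

end Pool.Agent.U41.QK
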