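import Pool.Agent.Results.MP_32c55d_nt.InertTowersX49
import Pool.Agent.U41.QK.Cm

/-!
# Multiquadratic towers over a given multiquadratic field
-/

set_option autoImplicit false

open scoped Classical

open NumberField
open scoped symmDiff

namespace Pool.Agent.U41.QK

open Pool.Agent.Results.MP_32c55d_nt.InertTowersX49 (curve A B factor RankZero TrivialTwo crit)
open Pool.Agent.Results.MP_4a9ea6_nt.TwoPartTwistsX49 (Adm mat)
open Pool.Agent.R413.SQ.Joint (tw_pf adm_tw)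
open Pool.Agent.U80.MQ (QD Om KK QD_inf KK_inf gd_symm adm_prod)
open Pool.Agent.R413.SQ (Gd mk)
open Pool.Agent.Results.MP_cd906c_nt.FibresOverMultiquadratic (rankZero_of)
open Pool.Agent.Results.MP_696deb_nt.SumsOfTwoSquares (rank_of)

/-- the squarefree part of the product -/
abbrev tw (M D : ℕ) : ℕ := Pool.Agent.R413.SQ.Joint.tw M D

/-- the tower primes -/
def TP (T : Finset ℕ) (D q : ℕ) : Prop :=
  q.Prime ∧ q % 4 = 1 ∧ (q % 7 = 3 ∨ q % 7 = 5 ∨ q % 7 = 6) ∧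
    ∀ p : ℕ, p.Prime → (p ∣ D ∨ ∃ M ∈ T, p ∣ M) → (p % 7 = 1 ∨ p % 7 = 2 ∨ p % 7 = 4) →
      IsSquare (q : ZMod p)

/-- the field generated by the square roots of `-7`, of the elements of `P` and of the tower primes -/
noncomputable def TF (P T : Finset ℕ) (D : ℕ) : IntermediateField ℚ ℂ :=
  IntermediateField.adjoin ℚ {z : ℂ | (∃ q : ℕ, (q ∈ P ∨ TP T D q) ∧ z ^ 2 = (q : ℂ)) ∨ z ^ 2 = -7}

theorem tp_QD {T : Finset ℕ} {D q : ℕ} (h : TP T D q) {D' : ℕ}
    (hD' : ∀ p ∈ D'.primeFactors, p ∣ D ∨ ∃ M ∈ T, p ∣ M) : QD D' q := by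
  obtain ⟨h1, h2, h3, h4⟩ := h
  refine ⟨h1, h2, ?_, fun p hp hm => h4 p (Nat.prime_of_mem_primeFactors hp) (hD' p hp) ?_⟩
  · unfold Pool.Agent.R413.SQ.mk
    rw [if_neg (by omega)]
    norm_num
  · by_contra hc
    unfold Pool.Agent.R413.SQ.mk at hm
    rw [if_neg hc] at hm
    exact absurd hm (by norm_num)

theorem QD_tp {T : Finset ℕ} {D q : ℕ} {D' : ℕ}
    (hD' : ∀ p : ℕ, p.Prime → (p ∣ D ∨ ∃ M ∈ T, p ∣ M) → p ∈ D'.primeFactors)
    (h : QD D' q) : TP T D q := by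
  obtain ⟨h1, h2, h3, h4⟩ := h
  refine ⟨h1, h2, ?_, fun p hp hd hm => h4 p (hD' p hp hd) (if_pos hm)⟩
  have h5 : ¬ (q % 7 = 1 ∨ q % 7 = 2 ∨ q % 7 = 4) := by
    intro h
    exact h3 (if_pos h)
  have h6 : q % 7 ≠ 0 := by
    intro h
    have h7 : 7 ∣ q := Nat.dvd_of_mod_eq_zero h
    have h8 := (Nat.prime_dvd_prime_iff_eq (by norm_num) h1).1 h7
    omega
  omega

/-- the product of all the primes involved -/
noncomputable def DD (T : Finset ℕ) (D : ℕ) : ℕ := ∏ p ∈ D.primeFactors ∪ T.biUnion Nat.primeFactors, p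

theorem DD_pf (T : Finset ℕ) (D : ℕ) :
    (DD T D).primeFactors = D.primeFactors ∪ T.biUnion Nat.primeFactors := by
  unfold DD
  refine Nat.primeFactors_prod fun p hp => ?_
  rcases Finset.mem_union.1 hp with h | h
  · exact Nat.prime_of_mem_primeFactors h
  · obtain ⟨M, -, h⟩ := Finset.mem_biUnion.1 h
    exact Nat.prime_of_mem_primeFactors h

theorem DD_adm {T : Finset ℕ} (hT : ∀ M ∈ T, Adm M) {D : ℕ} (hD : Adm D) : Adm (DD T D) := by
  have hp : ∀ p ∈ D.primeFactors ∪ T.biUnion Nat.primeFactors, p.Prime ∧ p % 4 = 1 := by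
    intro p hp
    rcases Finset.mem_union.1 hp with h | h
    · exact ⟨Nat.prime_of_mem_primeFactors h, hD.2 p h⟩
    · obtain ⟨M, hM, h⟩ := Finset.mem_biUnion.1 h
      exact ⟨Nat.prime_of_mem_primeFactors h, (hT M hM).2 p h⟩
  refine ⟨?_, fun p hp' => ?_⟩
  · unfold DD
    refine Finset.squarefree_prod_of_pairwise_isCoprime (fun p hp1 q hq hpq => ?_)
      fun p hp1 => (hp p hp1).1.squarefree
    show IsRelPrime p q
    rw [← Nat.coprime_iff_isRelPrime]
    exact (Nat.coprime_primes (hp p hp1).1 (hp q hq).1).mpr hpq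
  · rw [DD_pf] at hp'
    exact (hp p hp').2

/-- the tower is infinite -/
theorem TF_inf (P : Finset ℕ) {T : Finset ℕ} (hT : ∀ M ∈ T, Adm M) {D : ℕ} (hD : Adm D) :
    {q : ℕ | TP T D q}.Infinite ∧ ¬ FiniteDimensional ℚ (TF P T D) := by
  have hA := DD_adm hT hD
  have hq : ∀ q, QD (DD T D) q → TP T D q := fun q hq => QD_tp (fun p hp hd => by
    rw [DD_pf, Finset.mem_union, Finset.mem_biUnion]
    rcases hd with h | ⟨M, hM, h⟩
    · exact Or.inl (Nat.mem_primeFactors.2 ⟨hp, h, hD.1.ne_zero⟩)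
    · exact Or.inr ⟨M, hM, Nat.mem_primeFactors.2 ⟨hp, h, (hT M hM).1.ne_zero⟩⟩) hq
  refine ⟨(QD_inf hA).mono hq, fun hfd => KK_inf hA ?_⟩
  have hle : KK (DD T D) ≤ TF P T D := by
    unfold KK TF
    refine IntermediateField.adjoin.mono ℚ _ _ ?_
    rintro z ⟨q, h1, h2⟩
    exact Or.inl ⟨q, Or.inr (hq q h1), h2⟩
  exact Pool.Agent.Y682.XD.finDim_of_le hle

/-- `T` is closed under the multiplication by the elements of `P` -/
def Cl (P T : Finset ℕ) : Prop := ∀ M ∈ T, ∀ q ∈ P, tw q M ∈ T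

theorem adm_prime {q : ℕ} (hq : q.Prime) (h4 : q % 4 = 1) : Adm q := by
  refine ⟨hq.prime.squarefree, fun p hp => ?_⟩
  rw [hq.primeFactors, Finset.mem_singleton] at hp
  rw [hp]; exact h4

theorem closed_sub {P T : Finset ℕ} (hP : ∀ q ∈ P, q.Prime ∧ q % 4 = 1) (hT : ∀ M ∈ T, Adm M)
    (hC : Cl P T) (S : Finset ℕ) : S ⊆ P → ∀ M ∈ T, ∃ M₁ ∈ T, M₁.primeFactors = M.primeFactors ∆ S := by
  induction S using Finset.induction_on with
  | empty =>
    intro _ M hM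
    exact ⟨M, hM, by rw [← Finset.bot_eq_empty, symmDiff_bot]⟩
  | insert q S hq ih =>
    intro hS M hM
    obtain ⟨M₁, h1, h2⟩ := ih (fun p hp => hS (Finset.mem_insert_of_mem hp)) M hM
    have hqP := hS (Finset.mem_insert_self q S)
    refine ⟨tw q M₁, hC M₁ h1 q hqP, ?_⟩
    show (Pool.Agent.R413.SQ.Joint.tw q M₁).primeFactors = _
    rw [tw_pf (adm_prime (hP q hqP).1 (hP q hqP).2) (hT M₁ h1), h2, (hP q hqP).1.primeFactors,
      symmDiff_assoc]
    congr 1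
    ext p
    rw [Finset.mem_symmDiff, Finset.mem_singleton, Finset.mem_insert]
    rcases eq_or_ne p q with rfl | hp
    · tauto
    · tauto

/-- **all twists in the tower are good** -/
theorem tt_all {P T : Finset ℕ} (hP : ∀ q ∈ P, q.Prime ∧ q % 4 = 1) (hT : ∀ M ∈ T, Adm M)
    (hC : Cl P T) {D : ℕ} (hD : Adm D) (hG : ∀ M ∈ T, TrivialTwo (tw M D)) {M : ℕ} (hM : M ∈ T)
    (S : Finset ℕ) (hS : ∀ q ∈ S, q ∈ P ∨ TP T D q) : TrivialTwo (tw (∏ q ∈ S, q) (tw M D)) := by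
  have hSp : ∀ q ∈ S, q.Prime ∧ q % 4 = 1 := by
    intro q hq
    rcases hS q hq with h | h
    · exact hP q h
    · exact ⟨h.1, h.2.1⟩
  have hSpf : (∏ q ∈ S, q).primeFactors = S := Nat.primeFactors_prod fun q hq => (hSp q hq).1
  have hSA : Adm (∏ q ∈ S, q) := by
    refine ⟨?_, fun p hp' => ?_⟩
    · refine Finset.squarefree_prod_of_pairwise_isCoprime (fun p hp1 q hq hpq => ?_)
        fun p hp1 => (hSp p hp1).1.squarefree
      show IsRelPrime p q
      rw [← Nat.coprime_iff_isRelPrime]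
      exact (Nat.coprime_primes (hSp p hp1).1 (hSp q hq).1).mpr hpq
    · rw [hSpf] at hp'
      exact (hSp p hp').2
  have hA1 : Adm (tw M D) := adm_tw (hT M hM) hD
  have hA2 : Adm (tw (∏ q ∈ S, q) (tw M D)) := adm_tw hSA hA1
  set S1 := S.filter fun q => q ∈ P with hS1
  set S2 := S.filter fun q => q ∉ P with hS2
  obtain ⟨M₁, h1, h2⟩ := closed_sub hP hT hC S1 (fun q hq => (Finset.mem_filter.1 hq).2) M hM
  have hA3 : Adm (tw M₁ D) := adm_tw (hT M₁ h1) hD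
  have hQ : ∀ q ∈ S2, QD (tw M₁ D) q := by
    intro q hq
    obtain ⟨h3, h4⟩ := Finset.mem_filter.1 hq
    have h5 := (hS q h3).resolve_left h4
    refine tp_QD h5 fun p hp => ?_
    have e : (tw M₁ D).primeFactors = D.primeFactors ∆ M₁.primeFactors := tw_pf (hT M₁ h1) hD
    rw [e] at hp
    rcases Finset.mem_symmDiff.1 hp with h | h
    · exact Or.inl (Nat.dvd_of_mem_primeFactors h.1)
    · exact Or.inr ⟨M₁, h1, Nat.dvd_of_mem_primeFactors h.1⟩
  rw [crit hA2, Pool.Agent.R413.SQ.Cor.det_iff hA2]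
  have e1 : (tw (∏ q ∈ S, q) (tw M D)).primeFactors = (tw M₁ D).primeFactors ∆ S2 := by
    have f1 : (tw (∏ q ∈ S, q) (tw M D)).primeFactors =
        (tw M D).primeFactors ∆ (∏ q ∈ S, q).primeFactors := tw_pf hSA hA1
    have f2 : (tw M D).primeFactors = D.primeFactors ∆ M.primeFactors := tw_pf (hT M hM) hD
    have f3 : (tw M₁ D).primeFactors = D.primeFactors ∆ M₁.primeFactors := tw_pf (hT M₁ h1) hD
    rw [f1, f2, f3, h2, hSpf, symmDiff_assoc, symmDiff_assoc, symmDiff_assoc]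
    congr 2
    ext p
    rw [Finset.mem_symmDiff, hS1, hS2, Finset.mem_filter, Finset.mem_filter]
    tauto
  rw [e1, gd_symm hQ, ← Pool.Agent.R413.SQ.Cor.det_iff hA3, ← crit hA3]
  exact hG M₁ h1

/-- a number field inside the tower -/
theorem sub_TF {P T : Finset ℕ} {D : ℕ} (K : IntermediateField ℚ ℂ) [FiniteDimensional ℚ K]
    (hK : K ≤ TF P T D) : ∃ Q : Finset ℕ, (∀ q ∈ Q, q ∈ P ∨ TP T D q) ∧ K ≤ Om7 Q := by
  obtain ⟨Z0, h1, h2⟩ := Pool.Agent.Y18.NF.finite_gen K _ hK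
  have h3 : ∀ z : ℂ, ∃ q : ℕ, z ∈ Z0 → ¬ z ^ 2 = -7 → (q ∈ P ∨ TP T D q) ∧ z ^ 2 = (q : ℂ) := by
    intro z
    by_cases hz : z ∈ Z0
    · rcases h1 hz with ⟨q, hq⟩ | h7
      · exact ⟨q, fun _ _ => hq⟩
      · exact ⟨0, fun _ h => absurd h7 h⟩
    · exact ⟨0, fun h => absurd h hz⟩
  choose q hq using h3
  refine ⟨(Z0.filter fun z => ¬ z ^ 2 = -7).image q, fun r hr => ?_, h2.trans ?_⟩
  · obtain ⟨z, hz, rfl⟩ := Finset.mem_image.1 hr
    obtain ⟨hz1, hz2⟩ := Finset.mem_filter.1 hz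
    exact (hq z hz1 hz2).1
  · unfold Om7
    refine IntermediateField.adjoin.mono ℚ _ _ fun z hz => ?_
    by_cases h7 : z ^ 2 = -7
    · exact Or.inr h7
    · exact Or.inl ⟨q z, Finset.mem_image_of_mem q (Finset.mem_filter.2 ⟨hz, h7⟩), (hq z hz h7).2⟩

/-- **rank and order zero over all the number fields in the tower** -/
theorem rz_all {P T : Finset ℕ} (hP : ∀ q ∈ P, q.Prime ∧ q % 4 = 1) (hT : ∀ M ∈ T, Adm M)
    (hC : Cl P T) {D : ℕ} (hD : Adm D) (hG : ∀ M ∈ T, TrivialTwo (tw M D)) {M : ℕ} (hM : M ∈ T)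
    (K : IntermediateField ℚ ℂ) [NumberField K] (hK : K ≤ TF P T D) : RankZero (tw M D) K := by
  have hfd : FiniteDimensional ℚ K := NumberField.to_finiteDimensional
  obtain ⟨Q, hQ1, hQ2⟩ := sub_TF K hK
  have hA1 : Adm (tw M D) := adm_tw (hT M hM) hD
  have hQp : ∀ q ∈ Q, q.Prime ∧ q % 4 = 1 := by
    intro q hq
    rcases hQ1 q hq with h | h
    · exact hP q h
    · exact ⟨h.1, h.2.1⟩
  have hTT : ∀ S, S ⊆ Q → TrivialTwo (Pool.Agent.U80.MQ.tw (∏ q ∈ S, q) (tw M D)) := fun S hS =>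
    tt_all hP hT hC hD hG hM S fun q hq => hQ1 q (hS hq)
  have hSA : ∀ S, S ⊆ Q → Adm (∏ q ∈ S, q) := by
    intro S hS
    have hSpf : (∏ q ∈ S, q).primeFactors = S :=
      Nat.primeFactors_prod fun q hq => (hQp q (hS hq)).1
    refine ⟨?_, fun p hp' => ?_⟩
    · refine Finset.squarefree_prod_of_pairwise_isCoprime (fun p hp1 q hq hpq => ?_)
        fun p hp1 => (hQp p (hS hp1)).1.squarefree
      show IsRelPrime p q
      rw [← Nat.coprime_iff_isRelPrime]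
      exact (Nat.coprime_primes (hQp p (hS hp1)).1 (hQp q (hS hq)).1).mpr hpq
    · rw [hSpf] at hp'
      exact (hQp p (hS hp')).2
  have hfin : Finite (curve (tw M D) K).toAffine.Point :=
    fin_K7 (fun q hq => (hQp q hq).1) hA1.1.ne_zero (fun S hS => (hTT S hS).1) K hQ2
  obtain ⟨G, g1, g2, g3⟩ := lf_K Q hQp (D := tw M D) hA1.1
    (fun S hS => by
      have hD' := adm_tw (hSA S hS) hA1
      obtain ⟨-, F, f1, f2, f3, f4⟩ := rank_of hD' (hTT S hS)
      refine ⟨F, f1, fun s hs => f2 s hs, ?_⟩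
      rw [f4] at f3
      exact (f1.analyticAt 1).analyticOrderAt_eq_zero.1 f3) K hQ2
  exact rankZero_of hfin g1 (fun s hs => g2 s hs) g3

/-- the products of the subsets of `P` -/
def prods (P : Finset ℕ) : Finset ℕ := P.powerset.image fun S => ∏ q ∈ S, q

theorem prods_ok {P : Finset ℕ} (hP : ∀ q ∈ P, q.Prime ∧ q % 4 = 1) :
    Cl P (prods P) ∧ (∀ M ∈ prods P, Adm M) ∧ (prods P).card = 2 ^ P.card := by
  have hpf : ∀ S, S ⊆ P → (∏ q ∈ S, q).primeFactors = S := fun S hS =>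
    Nat.primeFactors_prod fun q hq => (hP q (hS hq)).1
  have hSA : ∀ S, S ⊆ P → Adm (∏ q ∈ S, q) := by
    intro S hS
    refine ⟨?_, fun p hp' => ?_⟩
    · refine Finset.squarefree_prod_of_pairwise_isCoprime (fun p hp1 q hq hpq => ?_)
        fun p hp1 => (hP p (hS hp1)).1.squarefree
      show IsRelPrime p q
      rw [← Nat.coprime_iff_isRelPrime]
      exact (Nat.coprime_primes (hP p (hS hp1)).1 (hP q (hS hq)).1).mpr hpq
    · rw [hpf S hS] at hp'
      exact (hP p (hS hp')).2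
  refine ⟨?_, ?_, ?_⟩
  · intro M hM q hq
    obtain ⟨S, hS, rfl⟩ := Finset.mem_image.1 hM
    rw [Finset.mem_powerset] at hS
    have h1 := (Pool.Agent.R413.SQ.Joint.ac_tw (adm_prime (hP q hq).1 (hP q hq).2) (hSA S hS)).1
    rw [hpf S hS, (hP q hq).1.primeFactors] at h1
    refine Finset.mem_image.2 ⟨S ∆ {q}, ?_, h1.symm⟩
    rw [Finset.mem_powerset]
    intro p hp
    rcases Finset.mem_symmDiff.1 hp with h | h
    · exact hS h.1
    · rw [Finset.mem_singleton.1 h.1]; exact hq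
  · intro M hM
    obtain ⟨S, hS, rfl⟩ := Finset.mem_image.1 hM
    exact hSA S (Finset.mem_powerset.1 hS)
  · unfold prods
    rw [Finset.card_image_of_injOn, Finset.card_powerset]
    intro S hS S' hS' h
    have h1 := hpf S (Finset.mem_powerset.1 hS)
    have h2 := hpf S' (Finset.mem_powerset.1 hS')
    have h' : (∏ q ∈ S, q) = ∏ q ∈ S', q := h
    rw [← h1, h', h2]

end Pool.Agent.U41.QK
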