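import Pool.Agent.U41.QB.Cnt

/-!
# The number of points of a quadric bundle over the projective line over a finite field
-/

set_option autoImplicit false

namespace Pool.Agent.U41.QK

open Finset Matrix MvPolynomial
open Pool.Agent.U41.QB (FF GG TT zeros no_mult sum_FF two_ne qc_mul_sq qf det_two_cols dual_zero)

/-- the matrix of polynomials at the point `w` -/
noncomputable def ev {F : Type*} [Field F] {n : ℕ} (S : Matrix (Fin n) (Fin n) (MvPolynomial (Fin 2) F)) {R : Type*}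
    [CommRing R] [Algebra F R] (w : Fin 2 → R) : Matrix (Fin n) (Fin n) R := S.map (aeval w)

theorem ev_symm {F : Type*} [Field F] {n : ℕ} {S : Matrix (Fin n) (Fin n) (MvPolynomial (Fin 2) F)} (hS : S.IsSymm)
    {R : Type*} [CommRing R] [Algebra F R] (w : Fin 2 → R) : (ev S w).IsSymm := hS.map _

theorem ev_det {F : Type*} [Field F] {n : ℕ} {S : Matrix (Fin n) (Fin n) (MvPolynomial (Fin 2) F)} {m : ℕ} {a b c : F}
    (hdet : S.det = (-1) ^ m * C (c ^ 2) * FF (C a) (C b) (X 0) (X 1))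
    {R : Type*} [CommRing R] [Algebra F R] (w : Fin 2 → R) :
    (ev S w).det = (-1) ^ m * (algebraMap F R c) ^ 2 * FF (algebraMap F R a) (algebraMap F R b) (w 0) (w 1) := by
  unfold ev
  have h1 : (S.map (aeval w : MvPolynomial (Fin 2) F →ₐ[F] R)).det = aeval w S.det := by
    rw [AlgHom.map_det]; rfl
  rw [h1, hdet]
  unfold FF GG
  simp

theorem FF_dual {F : Type*} [Field F] (h2 : (2 : F) ≠ 0) (h3 : (3 : F) ≠ 0) (k : ℕ)
    {S : Matrix (Fin (2 * k + 2)) (Fin (2 * k + 2)) (MvPolynomial (Fin 2) F)} {a b c : F}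
    (hdet : S.det = (-1) ^ (k + 1) * C (c ^ 2) * FF (C a) (C b) (X 0) (X 1))
    (hc : c ≠ 0) (w : Fin 2 → F)
    (P : Matrix (Fin (2 * k + 2)) (Fin (2 * k + 2)) F) (d : Fin (2 * k + 2) → F)
    (hP : P.det ≠ 0) (hd : Pᵀ * ev S w * P = Matrix.diagonal d) {i j : Fin (2 * k + 2)}
    (hij : i ≠ j) (hi : d i = 0) (hj : d j = 0) (δ : Fin 2 → F) :
    GG (algebraMap F (DualNumber F) b * (algebraMap F (DualNumber F) (w 0) +
        algebraMap F (DualNumber F) (δ 0) * DualNumber.eps) ^ 2)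
      (algebraMap F (DualNumber F) a * (algebraMap F (DualNumber F) (w 1) +
        algebraMap F (DualNumber F) (δ 1) * DualNumber.eps) ^ 2) = 0 := by
  set ι : F →+* DualNumber F := algebraMap F (DualNumber F) with hι
  set W : Fin 2 → DualNumber F := fun l => ι (w l) + ι (δ l) * DualNumber.eps with hW
  have hfst : ∀ p : MvPolynomial (Fin 2) F, (aeval W p).fst = aeval w p := by
    intro p
    have h1 : (TrivSqZeroExt.fstHom F F F) (aeval W p) = aeval w p := by
      rw [MvPolynomial.comp_aeval_apply]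
      congr 2
      funext l
      simp [hW, hι, TrivSqZeroExt.algebraMap_eq_inl]
    exact h1
  set Q : Matrix (Fin (2 * k + 2)) (Fin (2 * k + 2)) (DualNumber F) := P.map ι with hQ
  set T := Qᵀ * ev S W * Q with hT
  have hTf : ∀ r s, (T r s).fst = (Pᵀ * ev S w * P) r s := by
    intro r s
    have h1 : T.map (TrivSqZeroExt.fstHom F F F : DualNumber F →ₐ[F] F) =
        Pᵀ * ev S w * P := by
      rw [hT, Matrix.map_mul, Matrix.map_mul]
      congr 1
      · congr 1
        ext r s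
        simp only [Matrix.map_apply, ev]
        exact hfst _
    have h2 := congrFun (congrFun h1 r) s
    exact h2
  have hdetT : T.det = 0 := by
    refine det_two_cols T hij (fun r => ?_) (fun r => ?_)
    · rw [hTf, hd]
      by_cases h : r = i
      · rw [h, Matrix.diagonal_apply_eq, hi]
      · rw [Matrix.diagonal_apply_ne _ h]
    · rw [hTf, hd]
      by_cases h : r = j
      · rw [h, Matrix.diagonal_apply_eq, hj]
      · rw [Matrix.diagonal_apply_ne _ h]
  have hQd : Q.det = ι P.det := by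
    rw [hQ]
    exact (RingHom.map_det ι P).symm
  rw [hT, Matrix.det_mul, Matrix.det_mul, Matrix.det_transpose, hQd, ev_det hdet W] at hdetT
  have e1 : ι (P.det ^ 2 * c ^ 2 * (-1) ^ (k + 1) * (-3)) *
      GG (ι b * W 0 ^ 2) (ι a * W 1 ^ 2) = 0 := by
    rw [← hdetT]
    unfold FF
    rw [map_mul, map_mul, map_mul, map_pow, map_pow, map_pow]
    simp only [map_neg, map_one, map_ofNat]
    ring
  have hne : P.det ^ 2 * c ^ 2 * (-1) ^ (k + 1) * (-3) ≠ 0 := by
    refine mul_ne_zero (mul_ne_zero (mul_ne_zero (pow_ne_zero 2 hP) (pow_ne_zero 2 hc)) ?_)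
      (neg_ne_zero.2 h3)
    exact pow_ne_zero _ (by simp)
  have hu : IsUnit (ι (P.det ^ 2 * c ^ 2 * (-1) ^ (k + 1) * (-3))) := hne.isUnit.map ι
  exact (hu.mul_right_eq_zero).1 e1

/-- **the fibres have corank at most one** -/
theorem corank {F : Type*} [Field F] (h2 : (2 : F) ≠ 0) (h3 : (3 : F) ≠ 0) (h7 : (7 : F) ≠ 0)
    (k : ℕ)
    {S : Matrix (Fin (2 * k + 2)) (Fin (2 * k + 2)) (MvPolynomial (Fin 2) F)} {a b c : F}
    (hdet : S.det = (-1) ^ (k + 1) * C (c ^ 2) * FF (C a) (C b) (X 0) (X 1))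
    (ha : a ≠ 0) (hb : b ≠ 0) (hc : c ≠ 0) {w : Fin 2 → F} (hw : w ≠ 0)
    (P : Matrix (Fin (2 * k + 2)) (Fin (2 * k + 2)) F) (d : Fin (2 * k + 2) → F)
    (hP : P.det ≠ 0) (hd : Pᵀ * ev S w * P = Matrix.diagonal d) (i j : Fin (2 * k + 2))
    (hi : d i = 0) (hj : d j = 0) : i = j := by
  by_contra hij
  have key := FF_dual h2 h3 k hdet hc w P d hP hd hij hi hj
  set ι : F →+* DualNumber F := algebraMap F (DualNumber F) with hι
  have heps : (DualNumber.eps : DualNumber F) * DualNumber.eps = 0 := DualNumber.eps_mul_eps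
  -- the first direction
  have k1 := key ![1, 0]
  have k2 := key ![0, 1]
  simp only [Matrix.cons_val_zero, Matrix.cons_val_one, map_one, map_zero, one_mul, zero_mul,
    add_zero] at k1 k2
  have r1 : ι (GG (b * w 0 ^ 2) (a * w 1 ^ 2)) +
      ι ((48 * (b * w 0 ^ 2) ^ 2 - 30 * (b * w 0 ^ 2) * (a * w 1 ^ 2) -
        15 * (a * w 1 ^ 2) ^ 2) * (2 * b * w 0)) * DualNumber.eps = 0 := by
    rw [← k1]
    unfold GG
    simp only [map_add, map_sub, map_mul, map_pow, map_ofNat]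
    generalize ι b = B
    generalize ι a = A
    generalize ι (w 0) = x
    generalize ι (w 1) = y
    generalize (DualNumber.eps : DualNumber F) = e at *
    have he2 : e ^ 2 = 0 := by rw [sq, heps]
    have hx : (x + e) ^ 2 = x ^ 2 + 2 * x * e := by linear_combination he2
    rw [hx]
    linear_combination (-(16 * B ^ 3 * (3 * x ^ 2 * (2 * x) ^ 2 + (2 * x) ^ 3 * e)) +
      15 * B ^ 2 * (2 * x) ^ 2 * (A * y ^ 2)) * he2
  have r2 : ι (GG (b * w 0 ^ 2) (a * w 1 ^ 2)) +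
      ι ((48 * (a * w 1 ^ 2) ^ 2 - 30 * (b * w 0 ^ 2) * (a * w 1 ^ 2) -
        15 * (b * w 0 ^ 2) ^ 2) * (2 * a * w 1)) * DualNumber.eps = 0 := by
    rw [← k2]
    unfold GG
    simp only [map_add, map_sub, map_mul, map_pow, map_ofNat]
    generalize ι b = B
    generalize ι a = A
    generalize ι (w 0) = x
    generalize ι (w 1) = y
    generalize (DualNumber.eps : DualNumber F) = e at *
    have he2 : e ^ 2 = 0 := by rw [sq, heps]
    have hy : (y + e) ^ 2 = y ^ 2 + 2 * y * e := by linear_combination he2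
    rw [hy]
    linear_combination (-(16 * A ^ 3 * (3 * y ^ 2 * (2 * y) ^ 2 + (2 * y) ^ 3 * e)) +
      15 * A ^ 2 * (2 * y) ^ 2 * (B * x ^ 2)) * he2
  obtain ⟨g0, g1⟩ := dual_zero r1
  obtain ⟨-, g2⟩ := dual_zero r2
  have hx : w 0 * (48 * (b * w 0 ^ 2) ^ 2 - 30 * (b * w 0 ^ 2) * (a * w 1 ^ 2) -
        15 * (a * w 1 ^ 2) ^ 2) = 0 := by
    have h5 : (2 * b) * (w 0 * (48 * (b * w 0 ^ 2) ^ 2 -
        30 * (b * w 0 ^ 2) * (a * w 1 ^ 2) - 15 * (a * w 1 ^ 2) ^ 2)) = 0 := by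
      rw [← g1]; ring
    exact (mul_eq_zero.1 h5).resolve_left (mul_ne_zero h2 hb)
  have hy : w 1 * (48 * (a * w 1 ^ 2) ^ 2 - 30 * (b * w 0 ^ 2) * (a * w 1 ^ 2) -
        15 * (b * w 0 ^ 2) ^ 2) = 0 := by
    have h5 : (2 * a) * (w 1 * (48 * (a * w 1 ^ 2) ^ 2 -
        30 * (b * w 0 ^ 2) * (a * w 1 ^ 2) - 15 * (b * w 0 ^ 2) ^ 2)) = 0 := by
      rw [← g2]; ring
    exact (mul_eq_zero.1 h5).resolve_left (mul_ne_zero h2 ha)
  obtain ⟨x0, y0⟩ := no_mult h2 h3 h7 ha hb g0 hx hy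
  apply hw
  funext l
  fin_cases l
  · exact x0
  · exact y0

section
variable {F : Type*} [Field F] [Fintype F] [DecidableEq F]

/-- **the number of points** -/
theorem count (hF : ringChar F ≠ 2) (h3 : (3 : F) ≠ 0) (h7 : (7 : F) ≠ 0) (k : ℕ)
    {S : Matrix (Fin (2 * k + 2)) (Fin (2 * k + 2)) (MvPolynomial (Fin 2) F)} (hS : S.IsSymm)
    {a b c : F} (hdet : S.det = (-1) ^ (k + 1) * C (c ^ 2) * FF (C a) (C b) (X 0) (X 1))
    (ha : a ≠ 0) (hb : b ≠ 0) (hc : c ≠ 0) :
    ((univ.filter fun w : (Fin 2 → F) × (Fin (2 * k + 2) → F) =>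
      w.1 ≠ 0 ∧ w.2 ≠ 0 ∧ qf (ev S w.1) w.2 = 0).card : ℤ) =
      ((Fintype.card F : ℤ) - 1) ^ 2 * (((Fintype.card F : ℤ) + 1) *
        ∑ j ∈ range (2 * k + 1), (Fintype.card F : ℤ) ^ j +
        (Fintype.card F : ℤ) ^ k * (TT a + TT b)) := by
  classical
  have h2 := two_ne hF
  set q : ℤ := (Fintype.card F : ℤ) with hq
  have h1 : ∀ w : Fin 2 → F, ∑ z : Fin (2 * k + 2) → F,
      (if w ≠ 0 ∧ z ≠ 0 ∧ qf (ev S w) z = 0 then (1 : ℤ) else 0) =
      ((q ^ (2 * k + 1) - 1) + quadraticChar F (FF a b (w 0) (w 1)) * (q ^ (k + 1) - q ^ k)) -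
        if w = 0 then q ^ (2 * k + 1) - 1 else 0 := by
    intro w
    by_cases hw : w = 0
    · rw [if_pos hw]
      have e1 : ∀ z : Fin (2 * k + 2) → F,
          (if w ≠ 0 ∧ z ≠ 0 ∧ qf (ev S w) z = 0 then (1 : ℤ) else 0) = 0 :=
        fun z => if_neg fun h => h.1 hw
      simp_rw [e1]
      rw [hw]
      have e2 : FF a b ((0 : Fin 2 → F) 0) ((0 : Fin 2 → F) 1) = 0 := by
        unfold FF GG; simp
      rw [e2, MulChar.map_zero]
      simp
    · rw [if_neg hw, sub_zero]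
      have hz := zeros hF k (ev S w) (ev_symm hS w) (fun P d hP hd i j hi hj =>
        corank h2 h3 h7 k hdet ha hb hc hw P d hP hd i j hi hj)
      have e1 : ∀ z : Fin (2 * k + 2) → F,
          (if w ≠ 0 ∧ z ≠ 0 ∧ qf (ev S w) z = 0 then (1 : ℤ) else 0) =
          (if qf (ev S w) z = 0 then (1 : ℤ) else 0) - if z = 0 then 1 else 0 := by
        intro z
        by_cases hz0 : z = 0
        · rw [if_neg (fun h => h.2.1 hz0), if_pos hz0, if_pos, sub_self]
          rw [hz0]; unfold qf; simp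
        · rw [if_neg hz0, sub_zero]
          refine if_congr ⟨fun h => h.2.2, fun h => ⟨hw, hz0, h⟩⟩ rfl rfl
      simp_rw [e1]
      rw [Finset.sum_sub_distrib, Finset.sum_ite_eq' univ (0 : Fin (2 * k + 2) → F),
        if_pos (Finset.mem_univ _)]
      rw [Finset.card_filter] at hz
      push_cast at hz
      rw [hz, ← hq, ev_det hdet w]
      have e3 : quadraticChar F ((-1) ^ (k + 1) * ((-1) ^ (k + 1) * c ^ 2 *
          FF a b (w 0) (w 1))) = quadraticChar F (FF a b (w 0) (w 1)) := by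
        have : (-1 : F) ^ (k + 1) * ((-1) ^ (k + 1) * c ^ 2 *
          FF a b (w 0) (w 1)) = FF a b (w 0) (w 1) * (((-1) ^ (k + 1)) * c) ^ 2 := by ring
        rw [this, qc_mul_sq (mul_ne_zero (pow_ne_zero _ (by simp)) hc)]
      simp only [Algebra.algebraMap_self, RingHom.id_apply]
      rw [e3]
      ring
  rw [Finset.card_filter]
  push_cast
  rw [Fintype.sum_prod_type]
  rw [Finset.sum_congr rfl fun w _ => h1 w, Finset.sum_sub_distrib, Finset.sum_add_distrib,
    Finset.sum_const, ← Finset.sum_mul, Finset.sum_ite_eq' univ (0 : Fin 2 → F),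
    if_pos (Finset.mem_univ _)]
  have h5 : ∑ w : Fin 2 → F, quadraticChar F (FF a b (w 0) (w 1)) =
      (q - 1) * (TT a + TT b) := by
    rw [← sum_FF hF h3 ha hb, Finset.sum_comm, ← Fintype.sum_prod_type']
    refine Fintype.sum_equiv (finTwoArrowEquiv F) _ _ fun w => ?_
    simp [finTwoArrowEquiv]
  rw [h5, Finset.card_univ, Fintype.card_fun, Fintype.card_fin, nsmul_eq_mul]
  push_cast
  rw [← hq]
  have h6 := geom_sum_mul q (2 * k + 1)
  linear_combination (-(q - 1) * (q + 1)) * h6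

end

end Pool.Agent.U41.QK
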