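import Pool.Agent.U41.QK.Cnt
import Pool.Agent.U41.QB.Lf

/-!
# The Frobenius eigenvalues of a quadric bundle at a good place
-/

set_option autoImplicit false

namespace Pool.Agent.U41.QK

open Finset Matrix MvPolynomial
open Pool.Agent.H82R3.EK (luc luc_eq)
open Pool.Agent.U41.QB (FF GG TT two_ne qf al be al_add_be al_mul_be TT_bound ext_sum eig)

/-- the sum over an extension of a finite field -/
theorem TT_ext {k : Type*} [Field k] [Fintype k] [DecidableEq k] (hk : ringChar k ≠ 2)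
    (h7 : (7 : k) ≠ 0) {a : k} (ha : a ≠ 0) {F : Type*} [Field F] [Fintype F] [DecidableEq F]
    [Algebra k F] {r : ℕ} (hr : Fintype.card F = Fintype.card k ^ r) :
    ((TT (algebraMap k F a) : ℤ) : ℂ) =
      -((al (-TT a) (Fintype.card k)) ^ r + (be (-TT a) (Fintype.card k)) ^ r) := by
  have hfr : Module.finrank k F = r := by
    have h1 := Module.card_eq_pow_finrank (K := k) (V := F)
    rw [hr] at h1
    exact (Nat.pow_right_injective Fintype.one_lt_card h1).symm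
  have h2 : (2 : k) ≠ 0 := two_ne hk
  have hv : (112 * a ^ 2) ≠ 0 := by
    have : (112 : k) = 2 ^ 4 * 7 := by norm_num
    rw [this]
    exact mul_ne_zero (mul_ne_zero (pow_ne_zero 4 h2) h7) (pow_ne_zero 2 ha)
  have hD : (21 * a) ^ 2 - 4 * (112 * a ^ 2) ≠ 0 := by
    have : (21 * a) ^ 2 - 4 * (112 * a ^ 2) = -(7 * a ^ 2) := by ring
    rw [this]
    exact neg_ne_zero.2 (mul_ne_zero h7 (pow_ne_zero 2 ha))
  have key := ext_sum hk (21 * a) (112 * a ^ 2) hv hD (E := F)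
  have e1 : ∑ x : F, quadraticChar F (x * (x ^ 2 + algebraMap k F (21 * a) * x +
      algebraMap k F (112 * a ^ 2))) = TT (algebraMap k F a) := by
    unfold TT
    refine Finset.sum_congr rfl fun x _ => ?_
    simp only [map_mul, map_pow, map_ofNat]
  have e2 : ∑ x : k, quadraticChar k (x * (x ^ 2 + 21 * a * x + 112 * a ^ 2)) = TT a := rfl
  rw [e1, e2, hfr] at key
  have hb := TT_bound hk a
  have hb' : (((-TT a : ℤ)) : ℝ) ^ 2 ≤ 4 * ((Fintype.card k : ℕ) : ℝ) := by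
    push_cast
    rw [neg_sq]
    exact hb
  rw [key]
  push_cast
  rw [luc_eq (al_add_be _ _) (al_mul_be hb') r]

/-- **the point counts over all extensions of the residue field** -/
theorem frob {R : Type*} [CommRing R] {κ : Type*} [Field κ] [Finite κ] (π : R →+* κ)
    (h2 : π 2 ≠ 0) (h3 : π 3 ≠ 0) (h7 : π 7 ≠ 0) (k : ℕ)
    {S : Matrix (Fin (2 * k + 2)) (Fin (2 * k + 2)) (MvPolynomial (Fin 2) R)} (hS : S.IsSymm)
    {a b c : R} (hdet : S.det = (-1) ^ (k + 1) * C (c ^ 2) * FF (C a) (C b) (X 0) (X 1))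
    (ha : π a ≠ 0) (hb : π b ≠ 0) (hc : π c ≠ 0) {ta tb : ℤ}
    (hta : ∀ (_ : Fintype κ) (_ : DecidableEq κ), ta = -TT (π a))
    (htb : ∀ (_ : Fintype κ) (_ : DecidableEq κ), tb = -TT (π b))
    {F : Type*} [Field F] [Finite F] (φ : κ →+* F) {r : ℕ} (hr : Nat.card F = Nat.card κ ^ r) :
    (({w : (Fin 2 → F) × (Fin (2 * k + 2) → F) | w.1 ≠ 0 ∧ w.2 ≠ 0 ∧
      ∑ i, ∑ j, eval₂ (φ.comp π) w.1 (S i j) * w.2 i * w.2 j = 0}.ncard : ℕ) : ℂ) =
      ((Nat.card F : ℂ) - 1) ^ 2 * (((Nat.card F : ℂ) + 1) *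
        ∑ j ∈ range (2 * k + 1), (Nat.card F : ℂ) ^ j -
        ((eig k ta tb (Nat.card κ)).map (fun x => x ^ r)).sum) := by
  classical
  letI : Fintype F := Fintype.ofFinite F
  letI : Fintype κ := Fintype.ofFinite κ
  letI : Algebra κ F := φ.toAlgebra
  rw [hta inferInstance inferInstance, htb inferInstance inferInstance]
  rw [Nat.card_eq_fintype_card, Nat.card_eq_fintype_card] at hr
  rw [Nat.card_eq_fintype_card, Nat.card_eq_fintype_card]
  have hκ2 : (2 : κ) ≠ 0 := by rwa [map_ofNat] at h2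
  have hκ3 : (3 : κ) ≠ 0 := by rwa [map_ofNat] at h3
  have hκ7 : (7 : κ) ≠ 0 := by rwa [map_ofNat] at h7
  have hκ : ringChar κ ≠ 2 := by
    intro h
    exact hκ2 (by
      have := ringChar.Nat.cast_ringChar (R := κ)
      rw [h] at this
      exact_mod_cast this)
  have hF2 : (2 : F) ≠ 0 := by
    rw [← map_ofNat φ 2]; exact (map_ne_zero φ).2 hκ2
  have hF3 : (3 : F) ≠ 0 := by
    rw [← map_ofNat φ 3]; exact (map_ne_zero φ).2 hκ3
  have hF7 : (7 : F) ≠ 0 := by
    rw [← map_ofNat φ 7]; exact (map_ne_zero φ).2 hκ7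
  have hF : ringChar F ≠ 2 := by
    intro h
    exact hF2 (by
      have := ringChar.Nat.cast_ringChar (R := F)
      rw [h] at this
      exact_mod_cast this)
  set ψ : R →+* F := φ.comp π with hψ
  set S' : Matrix (Fin (2 * k + 2)) (Fin (2 * k + 2)) (MvPolynomial (Fin 2) F) :=
    S.map (MvPolynomial.map ψ) with hS'
  have hS's : S'.IsSymm := hS.map _
  have hdet' : S'.det = (-1) ^ (k + 1) * C (ψ c ^ 2) * FF (C (ψ a)) (C (ψ b)) (X 0) (X 1) := by
    have h1 : S'.det = MvPolynomial.map ψ S.det := (RingHom.map_det (MvPolynomial.map ψ) S).symm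
    rw [h1, hdet]
    unfold FF GG
    simp
  have key := count hF hF3 hF7 k hS's hdet' ((map_ne_zero φ).2 ha) ((map_ne_zero φ).2 hb)
    ((map_ne_zero φ).2 hc)
  have e1 : {w : (Fin 2 → F) × (Fin (2 * k + 2) → F) | w.1 ≠ 0 ∧ w.2 ≠ 0 ∧
      ∑ i, ∑ j, eval₂ ψ w.1 (S i j) * w.2 i * w.2 j = 0}.ncard =
      (univ.filter fun w : (Fin 2 → F) × (Fin (2 * k + 2) → F) =>
      w.1 ≠ 0 ∧ w.2 ≠ 0 ∧ qf (ev S' w.1) w.2 = 0).card := by
    rw [Set.ncard_eq_toFinset_card']
    congr 1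
    ext w
    simp only [Set.mem_toFinset, Set.mem_ofPred_eq, Finset.mem_filter, Finset.mem_univ, true_and]
    have h1 : qf (ev S' w.1) w.2 = ∑ i, ∑ j, eval₂ ψ w.1 (S i j) * w.2 i * w.2 j := by
      unfold qf ev
      refine Finset.sum_congr rfl fun i _ => Finset.sum_congr rfl fun j _ => ?_
      rw [hS', Matrix.map_apply, Matrix.map_apply, aeval_def, Algebra.algebraMap_self, eval₂_map,
        RingHom.id_comp]
    rw [h1]
  rw [e1]
  have key' := congrArg (fun z : ℤ => (z : ℂ)) key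
  push_cast at key'
  have ta1 := TT_ext hκ hκ7 ha hr
  have tb1 := TT_ext hκ hκ7 hb hr
  have ea : algebraMap κ F (π a) = ψ a := rfl
  have eb : algebraMap κ F (π b) = ψ b := rfl
  rw [ea] at ta1
  rw [eb] at tb1
  rw [key', ta1, tb1]
  have e2 : ((eig k (-TT (π a)) (-TT (π b)) (Fintype.card κ)).map (fun x => x ^ r)).sum =
      (Fintype.card F : ℂ) ^ k * ((al (-TT (π a)) (Fintype.card κ)) ^ r +
        (be (-TT (π a)) (Fintype.card κ)) ^ r +
        ((al (-TT (π b)) (Fintype.card κ)) ^ r + (be (-TT (π b)) (Fintype.card κ)) ^ r)) := by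
    unfold eig
    simp only [Multiset.insert_eq_cons, Multiset.map_cons, Multiset.map_singleton,
      Multiset.sum_cons, Multiset.sum_singleton, mul_pow]
    have e3 : (((Fintype.card κ : ℕ) : ℂ) ^ k) ^ r = ((Fintype.card F : ℕ) : ℂ) ^ k := by
      rw [hr]; push_cast; ring
    rw [e3]
    ring
  rw [e2]
  ring

end Pool.Agent.U41.QK
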