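import Pool.Agent.U41.QK.Frob
import Pool.Agent.Results.MP_32c55d_nt.InertTowersX49

/-!
# The `L`-function of a quadric bundle over a number field
-/

set_option autoImplicit false

namespace Pool.Agent.U41.QK

open Finset MvPolynomial NumberField IsDedekindDomain
open Pool.Agent.U41.QB (FF GG TT two_ne qf al be al_add_be al_mul_be norm_al norm_be TT_bound TT_sq eig
  gl gl_eq gl_diff)
open Pool.Agent.Results.MP_32c55d_nt.InertTowersX49 (curve A B trace factor RankZero)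

/-- `q_v` -/
noncomputable def qv {K : Type} [Field K] [NumberField K] (v : HeightOneSpectrum (𝓞 K)) : ℕ :=
  Ideal.absNorm v.asIdeal

/-- the trace of Frobenius of `y² = x³ - 35 a² x - 98 a³` -/
noncomputable def trK {K : Type} [Field K] [NumberField K] (a : 𝓞 K) (v : HeightOneSpectrum (𝓞 K)) : ℤ :=
  ((qv v : ℕ) : ℤ) - ((Nat.card {x : (𝓞 K ⧸ v.asIdeal) × (𝓞 K ⧸ v.asIdeal) //
    x.2 ^ 2 = x.1 ^ 3 - 35 * (Ideal.Quotient.mk v.asIdeal a) ^ 2 * x.1 -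
      98 * (Ideal.Quotient.mk v.asIdeal a) ^ 3} : ℕ) : ℤ)

section
variable {K : Type} [Field K] [NumberField K]

theorem qv_gt (v : HeightOneSpectrum (𝓞 K)) : 1 < qv v := by
  unfold qv
  have h0 : Ideal.absNorm v.asIdeal ≠ 0 := by
    rw [Ne, Ideal.absNorm_eq_zero_iff]; exact v.ne_bot
  have h1 : Ideal.absNorm v.asIdeal ≠ 1 := by
    rw [Ne, Ideal.absNorm_eq_one_iff]; exact v.isPrime.ne_top
  omega

theorem card_q (v : HeightOneSpectrum (𝓞 K)) : Nat.card (𝓞 K ⧸ v.asIdeal) = qv v := by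
  unfold qv
  rw [Ideal.absNorm_apply, Submodule.cardQuot_apply]

theorem fin_q (v : HeightOneSpectrum (𝓞 K)) : Finite (𝓞 K ⧸ v.asIdeal) :=
  Nat.finite_of_card_ne_zero (by rw [card_q]; have := qv_gt v; omega)

theorem tr_eq {κ : Type} [Field κ] [Fintype κ] [DecidableEq κ] (h2 : (2 : κ) ≠ 0) (a : κ) :
    ((Fintype.card κ : ℕ) : ℤ) - ((Nat.card {x : κ × κ //
      x.2 ^ 2 = x.1 ^ 3 - 35 * a ^ 2 * x.1 - 98 * a ^ 3} : ℕ) : ℤ) = -TT a := by
  have hκ : ringChar κ ≠ 2 := by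
    intro h
    exact h2 (by
      have := ringChar.Nat.cast_ringChar (R := κ)
      rw [h] at this
      exact_mod_cast this)
  have h1 := Pool.Agent.H82R3.EK.card_points (k := κ) hκ
    (fun x => x ^ 3 - 35 * a ^ 2 * x - 98 * a ^ 3)
  rw [h1]
  have h2 : ∑ x : κ, quadraticChar κ (x ^ 3 - 35 * a ^ 2 * x - 98 * a ^ 3) = TT a := by
    unfold TT
    symm
    refine Fintype.sum_equiv (Equiv.addRight (7 * a)) _ _ fun z => ?_
    show _ = quadraticChar κ ((z + 7 * a) ^ 3 - 35 * a ^ 2 * (z + 7 * a) - 98 * a ^ 3)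
    congr 1
    ring
  rw [h2]
  ring

/-- the trace as a character sum -/
theorem trK_TT {v : HeightOneSpectrum (𝓞 K)} (h2 : (2 : 𝓞 K) ∉ v.asIdeal) (a : 𝓞 K) :
    letI : Field (𝓞 K ⧸ v.asIdeal) := Ideal.Quotient.field v.asIdeal
    ∀ (_ : Fintype (𝓞 K ⧸ v.asIdeal)) (_ : DecidableEq (𝓞 K ⧸ v.asIdeal)),
      trK a v = -TT (Ideal.Quotient.mk v.asIdeal a) := by
  intro _ _
  let _ : Field (𝓞 K ⧸ v.asIdeal) := Ideal.Quotient.field v.asIdeal
  have h2' : (2 : 𝓞 K ⧸ v.asIdeal) ≠ 0 := by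
    intro h
    apply h2
    rw [← Ideal.Quotient.eq_zero_iff_mem, map_ofNat]
    exact h
  rw [← tr_eq h2']
  unfold trK
  rw [← Nat.card_eq_fintype_card, card_q]

theorem trK_bound {v : HeightOneSpectrum (𝓞 K)} (h2 : (2 : 𝓞 K) ∉ v.asIdeal) (a : 𝓞 K) :
    ((trK a v : ℤ) : ℝ) ^ 2 ≤ 4 * (qv v : ℕ) := by
  classical
  letI : Field (𝓞 K ⧸ v.asIdeal) := Ideal.Quotient.field v.asIdeal
  haveI := fin_q v
  letI : Fintype (𝓞 K ⧸ v.asIdeal) := Fintype.ofFinite _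
  have h2' : (2 : 𝓞 K ⧸ v.asIdeal) ≠ 0 := by
    intro h
    apply h2
    rw [← Ideal.Quotient.eq_zero_iff_mem, map_ofNat]
    exact h
  have hκ : ringChar (𝓞 K ⧸ v.asIdeal) ≠ 2 := by
    intro h
    exact h2' (by
      have := ringChar.Nat.cast_ringChar (R := 𝓞 K ⧸ v.asIdeal)
      rw [h] at this
      exact_mod_cast this)
  rw [trK_TT h2 a inferInstance inferInstance]
  have := TT_bound hκ (Ideal.Quotient.mk v.asIdeal a)
  rw [← Nat.card_eq_fintype_card, card_q] at this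
  push_cast
  rw [neg_sq]
  exact this

theorem trK_sq {v : HeightOneSpectrum (𝓞 K)} (h2 : (2 : 𝓞 K) ∉ v.asIdeal) (a : 𝓞 K) {t : 𝓞 K}
    (ht : t ∉ v.asIdeal) : trK (a * t ^ 2) v = trK a v := by
  classical
  letI : Field (𝓞 K ⧸ v.asIdeal) := Ideal.Quotient.field v.asIdeal
  haveI := fin_q v
  letI : Fintype (𝓞 K ⧸ v.asIdeal) := Fintype.ofFinite _
  rw [trK_TT h2 _ inferInstance inferInstance, trK_TT h2 _ inferInstance inferInstance, map_mul,
    map_pow, TT_sq]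
  rw [Ne, Ideal.Quotient.eq_zero_iff_mem]
  exact ht

/-- comparison with the library -/
theorem trK_int (D : ℕ) (v : HeightOneSpectrum (𝓞 K)) : trace (A D) (B D) v = trK (D : 𝓞 K) v := by
  unfold trace trK qv A B
  congr 3
  refine congrArg _ (funext fun x => ?_)
  refine congrArg (fun z => x.2 ^ 2 = z) ?_
  push_cast
  rw [map_natCast]
  ring

theorem gl_ne {t : ℤ} {p : ℕ} (hp : 1 < p) (h : (t : ℝ) ^ 2 ≤ 4 * p) {s : ℂ}
    (hs : (1 : ℝ) / 2 < s.re) : gl t s p ≠ 0 := by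
  have hp1 : 1 < (p : ℝ) := by exact_mod_cast hp
  have hp0 : 0 < (p : ℝ) := by linarith
  have key : ∀ z : ℂ, ‖z‖ ^ 2 = p → 1 - z * (p : ℂ) ^ (-s) ≠ 0 := by
    intro z hz h0
    have h1 : z * (p : ℂ) ^ (-s) = 1 := (sub_eq_zero.1 h0).symm
    have h2 : ‖z * (p : ℂ) ^ (-s)‖ ^ 2 = 1 := by rw [h1]; simp
    have h3 : ‖(p : ℂ) ^ (-s)‖ = (p : ℝ) ^ (-s.re) := by
      have := Complex.norm_cpow_eq_rpow_re_of_pos hp0 (-s)
      simpa using this
    rw [norm_mul, mul_pow, hz, h3, ← Real.rpow_natCast, ← Real.rpow_mul hp0.le,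
      ← Real.rpow_one_add' hp0.le (by push_cast; linarith)] at h2
    have h4 : (p : ℝ) ^ (1 + -s.re * ((2 : ℕ) : ℝ)) < 1 :=
      Real.rpow_lt_one_of_one_lt_of_neg hp1 (by push_cast; linarith)
    linarith
  rw [gl_eq (by omega) h]
  exact mul_ne_zero (key _ (norm_al h)) (key _ (norm_be h))

/-- removing finitely many factors -/
theorem remove {ι : Type*} [DecidableEq ι] (U : Finset ι) (G H g : ι → ℂ)
    (hU : ∀ v ∈ U, G v * g v = H v) (hN : ∀ v, v ∉ U → G v = H v) {x : ℂ} (h : HasProd G x) :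
    HasProd H (x * ∏ v ∈ U, g v) := by
  have h2 : HasProd (fun l => if l ∈ U then g l else 1) (∏ l ∈ U, g l) := by
    have h3 : ∏ l ∈ U, g l = ∏ l ∈ U, if l ∈ U then g l else 1 :=
      Finset.prod_congr rfl fun l hl => by rw [if_pos hl]
    rw [h3]
    exact hasProd_prod_of_ne_finset_one fun l hl => by rw [if_neg hl]
  have h4 := h.mul h2
  refine (congrArg (fun f => HasProd f (x * ∏ v ∈ U, g v)) (funext fun l => ?_)).mp h4
  by_cases hl : l ∈ U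
  · rw [if_pos hl, hU l hl]
  · rw [if_neg hl, mul_one, hN l hl]

open Classical in
/-- the incomplete `L`-function of `y² = x³ - 35 a² x - 98 a³` is entire and not zero at `1` -/
def NonVan (a N : 𝓞 K) : Prop :=
  ∃ f : ℂ → ℂ, Differentiable ℂ f ∧ (∀ s : ℂ, (3 : ℝ) / 2 < s.re →
    HasProd (fun v : HeightOneSpectrum (𝓞 K) =>
      if N ∈ v.asIdeal then (1 : ℂ) else (gl (trK a v) s (qv v))⁻¹) (f s)) ∧ f 1 ≠ 0

theorem fin_div {N : 𝓞 K} (hN : N ≠ 0) : {v : HeightOneSpectrum (𝓞 K) | N ∈ v.asIdeal}.Finite := by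
  have h := Ideal.finite_factors (I := Ideal.span {N}) (by
    rw [Ne, Ideal.zero_eq_bot, Ideal.span_singleton_eq_bot]; exact hN)
  refine h.subset fun v hv => ?_
  show v.asIdeal ∣ Ideal.span {N}
  rw [Ideal.dvd_span_singleton]
  exact hv

theorem disc_mem {D : ℕ} {v : HeightOneSpectrum (𝓞 K)} :
    ((2 * (4 * A D ^ 3 + 27 * B D ^ 2) : ℤ) : 𝓞 K) ∈ v.asIdeal ↔ (14 * (D : 𝓞 K)) ∈ v.asIdeal := by
  have e : ((2 * (4 * A D ^ 3 + 27 * B D ^ 2) : ℤ) : 𝓞 K) = 2 ^ 9 * 7 ^ 3 * (D : 𝓞 K) ^ 6 := by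
    unfold A B
    push_cast
    ring
  have hp := v.isPrime
  rw [e, show (14 * (D : 𝓞 K)) = 2 * 7 * D by ring, hp.mul_mem_iff_mem_or_mem,
    hp.mul_mem_iff_mem_or_mem, hp.mul_mem_iff_mem_or_mem, hp.mul_mem_iff_mem_or_mem,
    hp.pow_mem_iff_mem 9 (by norm_num), hp.pow_mem_iff_mem 3 (by norm_num),
    hp.pow_mem_iff_mem 6 (by norm_num)]

/-- more bad places, a twist by a square -/
theorem nonVan_of {D : ℕ} {t N : 𝓞 K} (hN : N ≠ 0) (h14 : 14 * ((D : 𝓞 K) * t ^ 2) ∣ N)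
    {Λ : ℂ → ℂ} (h1 : Differentiable ℂ Λ)
    (h2 : ∀ s : ℂ, (3 : ℝ) / 2 < s.re → HasProd (factor (K := K) (A D) (B D) s) (Λ s))
    (h3 : Λ 1 ≠ 0) : NonVan ((D : 𝓞 K) * t ^ 2) N := by
  classical
  have hdis : ∀ v : HeightOneSpectrum (𝓞 K), (14 * (D : 𝓞 K)) ∈ v.asIdeal → N ∈ v.asIdeal := by
    intro v hv
    obtain ⟨c, hc⟩ := h14
    rw [hc, show 14 * ((D : 𝓞 K) * t ^ 2) * c = (14 * (D : 𝓞 K)) * (t ^ 2 * c) by ring]
    exact v.asIdeal.mul_mem_right _ hv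
  have ht : ∀ v : HeightOneSpectrum (𝓞 K), t ∈ v.asIdeal → N ∈ v.asIdeal := by
    intro v hv
    obtain ⟨c, hc⟩ := h14
    rw [hc, show 14 * ((D : 𝓞 K) * t ^ 2) * c = t * (14 * D * t * c) by ring]
    exact v.asIdeal.mul_mem_right _ hv
  have h2m : ∀ v : HeightOneSpectrum (𝓞 K), (2 : 𝓞 K) ∈ v.asIdeal → (14 * (D : 𝓞 K)) ∈ v.asIdeal := by
    intro v hv
    rw [show (14 * (D : 𝓞 K)) = 2 * (7 * D) by ring]
    exact v.asIdeal.mul_mem_right _ hv
  set U : Finset (HeightOneSpectrum (𝓞 K)) := (fin_div hN).toFinset.filter fun v =>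
    (14 * (D : 𝓞 K)) ∉ v.asIdeal with hU
  have hUm : ∀ v, v ∈ U ↔ N ∈ v.asIdeal ∧ (14 * (D : 𝓞 K)) ∉ v.asIdeal := by
    intro v
    rw [hU, Finset.mem_filter, Set.Finite.mem_toFinset]
    rfl
  have hfac : ∀ (s : ℂ) (v : HeightOneSpectrum (𝓞 K)), (14 * (D : 𝓞 K)) ∉ v.asIdeal →
      factor (K := K) (A D) (B D) s v = (gl (trK (D : 𝓞 K) v) s (qv v))⁻¹ := by
    intro s v hv
    unfold factor
    rw [if_neg (fun h => hv (disc_mem.1 h)), trK_int]
    rfl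
  have hbd : ∀ v ∈ U, ((trK (D : 𝓞 K) v : ℤ) : ℝ) ^ 2 ≤ 4 * (qv v : ℕ) := by
    intro v hv
    exact trK_bound (fun h => ((hUm v).1 hv).2 (h2m v h)) _
  refine ⟨fun s => Λ s * ∏ v ∈ U, gl (trK (D : 𝓞 K) v) s (qv v), ?_, fun s hs => ?_, ?_⟩
  · refine h1.mul (Differentiable.fun_finsetProd fun v _ => ?_)
    exact gl_diff _ (by have := qv_gt v; omega)
  · refine remove U _ _ (fun v => gl (trK (D : 𝓞 K) v) s (qv v)) (fun v hv => ?_) (fun v hv => ?_)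
      (h2 s hs)
    · rw [if_pos ((hUm v).1 hv).1, hfac s v ((hUm v).1 hv).2]
      exact inv_mul_cancel₀ (gl_ne (qv_gt v) (hbd v hv) (by linarith))
    · by_cases hv14 : (14 * (D : 𝓞 K)) ∈ v.asIdeal
      · rw [if_pos (hdis v hv14)]
        unfold factor
        rw [if_pos (disc_mem.2 hv14)]
      · have hvN : N ∉ v.asIdeal := fun h => hv ((hUm v).2 ⟨h, hv14⟩)
        rw [if_neg hvN, hfac s v hv14, trK_sq (fun h => hv14 (h2m v h)) _ (fun h => hvN (ht v h))]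
  · show Λ 1 * ∏ v ∈ U, gl (trK (D : 𝓞 K) v) 1 (qv v) ≠ 0
    refine mul_ne_zero h3 (Finset.prod_ne_zero_iff.2 fun v hv => ?_)
    exact gl_ne (qv_gt v) (hbd v hv) (by norm_num)

theorem eig_prod (k : ℕ) {t t' : ℤ} {p : ℕ} (hp : p ≠ 0) (h : (t : ℝ) ^ 2 ≤ 4 * p)
    (h' : (t' : ℝ) ^ 2 ≤ 4 * p) (s : ℂ) :
    ((eig k t t' p).map fun z => (1 - z * (p : ℂ) ^ (-s))⁻¹).prod =
      (gl t (s - k) p)⁻¹ * (gl t' (s - k) p)⁻¹ := by
  have hp' : (p : ℂ) ≠ 0 := by exact_mod_cast hp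
  have h1 : (p : ℂ) ^ (-(s - k)) = (p : ℂ) ^ k * (p : ℂ) ^ (-s) := by
    rw [show -(s - (k : ℂ)) = (k : ℂ) + (-s) by ring, Complex.cpow_add _ _ hp', Complex.cpow_natCast]
  rw [gl_eq hp h, gl_eq hp h', h1]
  unfold eig
  simp only [Multiset.insert_eq_cons, Multiset.map_cons, Multiset.map_singleton,
    Multiset.prod_cons, Multiset.prod_singleton]
  rw [← mul_inv, ← mul_inv, ← mul_inv, ← mul_inv]
  congr 1
  ring

open Classical in
/-- **the `L`-function of the bundle** -/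
theorem L_two (k : ℕ) {a b N : 𝓞 K} (h2N : (2 : 𝓞 K) ∣ N) (ha : NonVan a N) (hb : NonVan b N) :
    ∃ L : ℂ → ℂ, Differentiable ℂ L ∧ (∀ s : ℂ, (k : ℝ) + 3 / 2 < s.re →
      HasProd (fun v : HeightOneSpectrum (𝓞 K) => if N ∈ v.asIdeal then (1 : ℂ) else
        ((eig k (trK a v) (trK b v) (qv v)).map fun z => (1 - z * ((qv v : ℕ) : ℂ) ^ (-s))⁻¹).prod)
          (L s)) ∧
      L (k + 1) ≠ 0 := by
  obtain ⟨f, f1, f2, f3⟩ := ha
  obtain ⟨g, g1, g2, g3⟩ := hb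
  refine ⟨fun s => f (s - k) * g (s - k), ?_, fun s hs => ?_, ?_⟩
  · exact (f1.comp (differentiable_id.sub_const _)).mul (g1.comp (differentiable_id.sub_const _))
  · have hs' : (3 : ℝ) / 2 < (s - k).re := by
      simp only [Complex.sub_re, Complex.natCast_re]
      linarith
    have h1 := (f2 _ hs').mul (g2 _ hs')
    refine (congrArg (fun F => HasProd F (f (s - k) * g (s - k))) (funext fun v => ?_)).mp h1
    by_cases hv : N ∈ v.asIdeal
    · rw [if_pos hv, if_pos hv, if_pos hv, one_mul]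
    · rw [if_neg hv, if_neg hv, if_neg hv]
      have h2 : (2 : 𝓞 K) ∉ v.asIdeal := by
        intro h
        apply hv
        obtain ⟨c, rfl⟩ := h2N
        exact v.asIdeal.mul_mem_right _ h
      exact (eig_prod k (by have := qv_gt v; omega) (trK_bound h2 a) (trK_bound h2 b) s).symm
  · show f ((k : ℂ) + 1 - k) * g ((k : ℂ) + 1 - k) ≠ 0
    have : (k : ℂ) + 1 - k = 1 := by ring
    rw [this]
    exact mul_ne_zero f3 g3

end

end Pool.Agent.U41.QK
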