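import Pool.Agent.U41.QK.Frob

/-!
# Intersections of two quadrics in `ℙ⁵`
-/

set_option autoImplicit false

namespace Pool.Agent.U41.QK

open Finset MvPolynomial
open Pool.Agent.U41.QB (FF GG TT eig)

section
variable {F : Type*} [Field F] [Fintype F] [DecidableEq F]

/-- the solutions of one linear equation in two variables -/
theorem lin_count (f g : F) : ((univ.filter fun w : Fin 2 → F => w ≠ 0 ∧ w 0 * f + w 1 * g = 0).card : ℤ) =
    if f = 0 ∧ g = 0 then (Fintype.card F : ℤ) ^ 2 - 1 else (Fintype.card F : ℤ) - 1 := by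
  classical
  have h0 : (univ.filter fun w : Fin 2 → F => w ≠ 0 ∧ w 0 * f + w 1 * g = 0) =
      (univ.filter fun w : Fin 2 → F => w 0 * f + w 1 * g = 0).erase 0 := by
    ext w
    simp only [mem_filter, mem_univ, true_and, mem_erase]
  have h1 : (0 : Fin 2 → F) ∈ univ.filter fun w : Fin 2 → F => w 0 * f + w 1 * g = 0 := by
    simp
  rw [h0, card_erase_of_mem h1]
  have hpos : 0 < (univ.filter fun w : Fin 2 → F => w 0 * f + w 1 * g = 0).card := card_pos.2 ⟨0, h1⟩
  rw [Nat.cast_sub (by omega)]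
  split_ifs with h
  · obtain ⟨rfl, rfl⟩ := h
    simp
  · have h2 : (univ.filter fun w : Fin 2 → F => w 0 * f + w 1 * g = 0).card = Fintype.card F := by
      rw [← Finset.card_univ (α := F)]
      by_cases hg : g = 0
      · have hf : f ≠ 0 := fun hf => h ⟨hf, hg⟩
        refine Finset.card_bij' (fun w _ => w 1) (fun x _ => ![0, x]) (fun _ _ => mem_univ _) ?_ ?_ ?_
        · intro x _
          simp [hg]
        · intro w hw
          rw [mem_filter, hg, mul_zero, add_zero] at hw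
          have h3 := (mul_eq_zero.1 hw.2).resolve_right hf
          funext i
          fin_cases i
          · simp [h3]
          · simp
        · intro x _
          simp
      · refine Finset.card_bij' (fun w _ => w 0) (fun x _ => ![x, -x * f / g]) (fun _ _ => mem_univ _) ?_ ?_ ?_
        · intro x _
          rw [mem_filter]
          refine ⟨mem_univ _, ?_⟩
          simp only [Matrix.cons_val_zero, Matrix.cons_val_one]
          field_simp
          ring
        · intro w hw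
          rw [mem_filter] at hw
          funext i
          fin_cases i
          · simp
          · simp only [Fin.mk_one, Matrix.cons_val_one, Matrix.cons_val_fin_one]
            rw [div_eq_iff hg]
            linear_combination -hw.2
        · intro x _
          simp
    rw [h2]
    simp

/-- the points of the family and the points of the base locus -/
theorem pencil_count {m : ℕ} (f g : (Fin m → F) → F) :
    ((univ.filter fun w : (Fin 2 → F) × (Fin m → F) =>
      w.1 ≠ 0 ∧ w.2 ≠ 0 ∧ w.1 0 * f w.2 + w.1 1 * g w.2 = 0).card : ℤ) =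
      ((Fintype.card F : ℤ) - 1) * ((Fintype.card F : ℤ) *
        ((univ.filter fun z : Fin m → F => z ≠ 0 ∧ f z = 0 ∧ g z = 0).card : ℤ) +
        (Fintype.card F : ℤ) ^ m - 1) := by
  classical
  set q : ℤ := (Fintype.card F : ℤ) with hq
  have h1 : ((univ.filter fun w : (Fin 2 → F) × (Fin m → F) =>
      w.1 ≠ 0 ∧ w.2 ≠ 0 ∧ w.1 0 * f w.2 + w.1 1 * g w.2 = 0).card : ℤ) =
      ∑ z : Fin m → F, if z = 0 then 0 else
        (if f z = 0 ∧ g z = 0 then q ^ 2 - 1 else q - 1) := by
    rw [Finset.card_filter]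
    push_cast
    rw [Fintype.sum_prod_type_right]
    refine Finset.sum_congr rfl fun z _ => ?_
    split_ifs with hz h
    · refine Finset.sum_eq_zero fun w _ => ?_
      rw [if_neg (fun h => h.2.1 hz)]
    · have := lin_count (f z) (g z)
      rw [if_pos h, Finset.card_filter] at this
      push_cast at this
      rw [← this]
      refine Finset.sum_congr rfl fun w _ => ?_
      refine if_congr ⟨fun h => ⟨h.1, h.2.2⟩, fun h => ⟨h.1, hz, h.2⟩⟩ rfl rfl
    · have := lin_count (f z) (g z)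
      rw [if_neg h, Finset.card_filter] at this
      push_cast at this
      rw [← this]
      refine Finset.sum_congr rfl fun w _ => ?_
      refine if_congr ⟨fun h => ⟨h.1, h.2.2⟩, fun h => ⟨h.1, hz, h.2⟩⟩ rfl rfl
  have h2 : ∀ z : Fin m → F, (if z = 0 then 0 else (if f z = 0 ∧ g z = 0 then q ^ 2 - 1 else q - 1)) =
      (q - 1) * (1 - (if z = 0 then 1 else 0)) +
        (q ^ 2 - q) * (if z ≠ 0 ∧ f z = 0 ∧ g z = 0 then 1 else 0) := by
    intro z
    by_cases hz : z = 0
    · simp [hz]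
    · by_cases h : f z = 0 ∧ g z = 0
      · rw [if_neg hz, if_pos h, if_neg hz, if_pos ⟨hz, h⟩]; ring
      · rw [if_neg hz, if_neg h, if_neg hz, if_neg (fun h' => h h'.2)]; ring
  rw [h1, Finset.sum_congr rfl fun z _ => h2 z, Finset.sum_add_distrib, ← Finset.mul_sum,
    ← Finset.mul_sum, Finset.sum_sub_distrib, Finset.sum_const, Finset.card_univ,
    Finset.sum_ite_eq' univ (0 : Fin m → F), if_pos (Finset.mem_univ _), Finset.card_filter,
    Fintype.card_fun, Fintype.card_fin, nsmul_eq_mul, mul_one]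
  push_cast
  rw [← hq]
  ring

end

/-- the values of a pencil -/
theorem ev_pencil {R F : Type*} [CommRing R] [Field F] {m : ℕ} (A B : Matrix (Fin m) (Fin m) R)
    (ψ : R →+* F) (w : Fin 2 → F) (z : Fin m → F) :
    ∑ i, ∑ j, eval₂ ψ w ((A.map (fun α => C α * X 0) + B.map (fun β => C β * X 1) :
      Matrix (Fin m) (Fin m) (MvPolynomial (Fin 2) R)) i j) * z i * z j =
      w 0 * (∑ i, ∑ j, ψ (A i j) * z i * z j) + w 1 * (∑ i, ∑ j, ψ (B i j) * z i * z j) := by
  rw [Finset.mul_sum, Finset.mul_sum, ← Finset.sum_add_distrib]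
  refine Finset.sum_congr rfl fun i _ => ?_
  rw [Finset.mul_sum, Finset.mul_sum, ← Finset.sum_add_distrib]
  refine Finset.sum_congr rfl fun j _ => ?_
  have e : eval₂ ψ w ((A.map (fun α => C α * X 0) + B.map (fun β => C β * X 1) :
      Matrix (Fin m) (Fin m) (MvPolynomial (Fin 2) R)) i j) = ψ (A i j) * w 0 + ψ (B i j) * w 1 := by
    show eval₂ ψ w (C (A i j) * X 0 + C (B i j) * X 1) = _
    rw [eval₂_add, eval₂_mul, eval₂_mul, eval₂_C, eval₂_C, eval₂_X, eval₂_X]
  rw [e]
  ring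

/-- **the numbers of points of an intersection of two quadrics** -/
theorem frob_pencil {R : Type*} [CommRing R] {κ : Type*} [Field κ] [Finite κ] (π : R →+* κ)
    (h2 : π 2 ≠ 0) (h3 : π 3 ≠ 0) (h7 : π 7 ≠ 0)
    {A B : Matrix (Fin 6) (Fin 6) R} (hA : A.IsSymm) (hB : B.IsSymm)
    {a b c : R} (hdet : (A.map (fun α => C α * X 0) + B.map (fun β => C β * X 1) :
      Matrix (Fin 6) (Fin 6) (MvPolynomial (Fin 2) R)).det = -(C (c ^ 2) * FF (C a) (C b) (X 0) (X 1)))
    (ha : π a ≠ 0) (hb : π b ≠ 0) (hc : π c ≠ 0) {ta tb : ℤ}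
    (hta : ∀ (_ : Fintype κ) (_ : DecidableEq κ), ta = -TT (π a))
    (htb : ∀ (_ : Fintype κ) (_ : DecidableEq κ), tb = -TT (π b))
    {F : Type*} [Field F] [Finite F] (φ : κ →+* F) {r : ℕ} (hr : Nat.card F = Nat.card κ ^ r) :
    (({z : Fin 6 → F | z ≠ 0 ∧ ∑ i, ∑ j, (φ.comp π) (A i j) * z i * z j = 0 ∧
      ∑ i, ∑ j, (φ.comp π) (B i j) * z i * z j = 0}.ncard : ℕ) : ℂ) =
      ((Nat.card F : ℂ) - 1) * (∑ j ∈ range 4, (Nat.card F : ℂ) ^ j -
        ((eig 1 ta tb (Nat.card κ)).map (fun x => x ^ r)).sum) := by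
  classical
  let _ : Fintype F := Fintype.ofFinite F
  have e1 : (A.map (fun α => (C α * X 0 : MvPolynomial (Fin 2) R))).IsSymm := hA.map _
  have e2 : (B.map (fun β => (C β * X 1 : MvPolynomial (Fin 2) R))).IsSymm := hB.map _
  have hSs := e1.add e2
  have hdet' : (A.map (fun α => C α * X 0) + B.map (fun β => C β * X 1) :
      Matrix (Fin 6) (Fin 6) (MvPolynomial (Fin 2) R)).det =
      (-1) ^ (2 + 1) * C (c ^ 2) * FF (C a) (C b) (X 0) (X 1) := by
    rw [hdet]
    ring
  have key : (({w : (Fin 2 → F) × (Fin 6 → F) | w.1 ≠ 0 ∧ w.2 ≠ 0 ∧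
      ∑ i, ∑ j, eval₂ (φ.comp π) w.1 ((A.map (fun α => C α * X 0) + B.map (fun β => C β * X 1) :
      Matrix (Fin 6) (Fin 6) (MvPolynomial (Fin 2) R)) i j) * w.2 i * w.2 j = 0}.ncard : ℕ) : ℂ) =
      ((Nat.card F : ℂ) - 1) ^ 2 * (((Nat.card F : ℂ) + 1) *
        ∑ j ∈ range 5, (Nat.card F : ℂ) ^ j -
        ((eig 2 ta tb (Nat.card κ)).map (fun x => x ^ r)).sum) :=
    frob π h2 h3 h7 2 hSs hdet' ha hb hc hta htb φ hr
  simp_rw [ev_pencil] at key
  set f : (Fin 6 → F) → F := fun z => ∑ i, ∑ j, (φ.comp π) (A i j) * z i * z j with hf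
  set g : (Fin 6 → F) → F := fun z => ∑ i, ∑ j, (φ.comp π) (B i j) * z i * z j with hg
  have hc1 := pencil_count f g
  have e1 : ({w : (Fin 2 → F) × (Fin 6 → F) | w.1 ≠ 0 ∧ w.2 ≠ 0 ∧
      w.1 0 * (∑ i, ∑ j, (φ.comp π) (A i j) * w.2 i * w.2 j) +
        w.1 1 * (∑ i, ∑ j, (φ.comp π) (B i j) * w.2 i * w.2 j) = 0}.ncard) =
      (univ.filter fun w : (Fin 2 → F) × (Fin 6 → F) =>
      w.1 ≠ 0 ∧ w.2 ≠ 0 ∧ w.1 0 * f w.2 + w.1 1 * g w.2 = 0).card := by
    rw [Set.ncard_eq_toFinset_card']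
    congr 1
    ext w
    simp only [Set.mem_toFinset, Set.mem_ofPred_eq, Finset.mem_filter, Finset.mem_univ, true_and]
    rfl
  have e2 : {z : Fin 6 → F | z ≠ 0 ∧ ∑ i, ∑ j, (φ.comp π) (A i j) * z i * z j = 0 ∧
      ∑ i, ∑ j, (φ.comp π) (B i j) * z i * z j = 0}.ncard =
      (univ.filter fun z : Fin 6 → F => z ≠ 0 ∧ f z = 0 ∧ g z = 0).card := by
    rw [Set.ncard_eq_toFinset_card']
    congr 1
    ext z
    simp only [Set.mem_toFinset, Set.mem_ofPred_eq, Finset.mem_filter, Finset.mem_univ, true_and]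
    rfl
  have hk : (Nat.card κ : ℂ) ^ r = (Nat.card F : ℂ) := by rw [hr]; push_cast; rfl
  have e3 : ((eig 2 ta tb (Nat.card κ)).map (fun x => x ^ r)).sum =
      (Nat.card F : ℂ) * ((eig 1 ta tb (Nat.card κ)).map (fun x => x ^ r)).sum := by
    unfold eig
    simp only [Multiset.insert_eq_cons, Multiset.map_cons, Multiset.map_singleton,
      Multiset.sum_cons, Multiset.sum_singleton, mul_pow]
    rw [← hk]
    ring
  rw [e1, e3] at key
  rw [e2]
  have hc1' := congrArg (fun z : ℤ => (z : ℂ)) hc1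
  push_cast at hc1'
  rw [hc1', Nat.card_eq_fintype_card] at key
  rw [Nat.card_eq_fintype_card]
  set Z : ℂ := (Multiset.map (fun x => x ^ r) (eig 1 ta tb (Nat.card κ))).sum with hZ
  set q : ℂ := (Fintype.card F : ℂ) with hq
  have hq1 : q - 1 ≠ 0 := by
    have h1 : 1 < Fintype.card F := Fintype.one_lt_card
    rw [hq, sub_ne_zero]
    exact_mod_cast h1.ne'
  have hq0 : q ≠ 0 := by
    have h1 : 0 < Fintype.card F := Fintype.card_pos
    rw [hq]
    exact_mod_cast h1.ne'
  simp only [Finset.sum_range_succ, Finset.sum_range_zero] at key ⊢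
  refine mul_left_cancel₀ (mul_ne_zero hq1 hq0) ?_
  linear_combination key

end Pool.Agent.U41.QK
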